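import Pool.Agent.Lib_helper48.TD.D3

/-! Several modules, an own pseudo-reflection for each of them: the product of the sl. -/

set_option autoImplicit false
set_option linter.unusedSectionVars false

namespace Pool.Agent.TD

open Module

section kill

variable {K : Type*} [Field K] {V : Type*} [AddCommGroup V] [Module K V]

/-- The composite of the maps y ↦ S y S' - μ y. -/
def kp (S S' : Module.End K V) (P : List K) (x : Module.End K V) : Module.End K V :=
  P.foldr (fun μ y => S * y * S' - μ • y) x

/-- Conjugation by c + u ⊗ φ is killed by (T - 1)(T - d/c)(T - c/d), d = c + φ(u). -/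
theorem kp_refl {S S' : Module.End K V} (hSS : S * S' = 1) {c d : K} (hc : c ≠ 0) (hd : d ≠ 0)
    {φ : Module.Dual K V} {u : V} (hS : ∀ v, S v = c • v + φ v • u) (hφ : φ u = d - c)
    (x : Module.End K V) : kp S S' [1, d * c⁻¹, c * d⁻¹] x = 0 := by
  obtain ⟨N, hN⟩ : ∃ N : Module.End K V, N = φ.smulRight u := ⟨_, rfl⟩
  have Nv : ∀ v, N v = φ v • u := fun v => by rw [hN, sr_apply]
  have hSN : S = c • 1 + N := by
    ext v
    rw [hS, LinearMap.add_apply, LinearMap.smul_apply, Module.End.one_apply, Nv]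
  have hNN : N * N = (d - c) • N := by
    ext v
    rw [Module.End.mul_apply, Nv, Nv, map_smul, hφ, LinearMap.smul_apply, Nv, smul_smul, smul_eq_mul,
      mul_comm]
  have hS' : S' = c⁻¹ • 1 - (c * d)⁻¹ • N := by
    have h1 : (c⁻¹ • 1 - (c * d)⁻¹ • N) * S = 1 := by
      rw [hSN]
      simp only [sub_mul, mul_add, smul_mul_assoc, mul_smul_comm, one_mul, mul_one, hNN, smul_smul]
      match_scalars <;> field_simp <;> ring
    calc S' = ((c⁻¹ • 1 - (c * d)⁻¹ • N) * S) * S' := by rw [h1, one_mul]
      _ = c⁻¹ • 1 - (c * d)⁻¹ • N := by rw [mul_assoc, hSS, mul_one]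
  obtain ⟨τ, hτ⟩ : ∃ τ : K, N * x * N = τ • N := by
    refine ⟨φ (x u), ?_⟩
    ext v
    rw [Module.End.mul_apply, Module.End.mul_apply, LinearMap.smul_apply, Nv, Nv, map_smul,
      map_smul, smul_smul, smul_eq_mul, mul_comm]
  have t0 : S * x * S' = x + c⁻¹ • (N * x) - d⁻¹ • (x * N) - ((c * d)⁻¹ * τ) • N := by
    rw [hSN, hS']
    simp only [mul_sub, add_mul, smul_mul_assoc, mul_smul_comm, one_mul, mul_one, hτ]
    match_scalars <;> field_simp
  have t1 : S * (N * x) * S' = (d * c⁻¹) • (N * x) - (c⁻¹ * τ) • N := by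
    have e : S * (N * x) * S' = (S * N) * x * S' := by rw [mul_assoc S N x]
    have e2 : S * N = d • N := by
      rw [hSN, add_mul, smul_mul_assoc, one_mul, hNN]; module
    rw [e, e2, hS']
    simp only [mul_sub, smul_mul_assoc, mul_smul_comm, mul_one, hτ, smul_smul]
    match_scalars <;> field_simp
  have t2 : S * (x * N) * S' = (c * d⁻¹) • (x * N) + (d⁻¹ * τ) • N := by
    have e : S * (x * N) * S' = S * x * (N * S') := by simp only [mul_assoc]
    have e2 : N * S' = d⁻¹ • N := by
      rw [hS', mul_sub, mul_smul_comm, mul_one, mul_smul_comm, hNN, smul_smul]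
      match_scalars
      field_simp
      ring
    rw [e, e2, hSN]
    simp only [add_mul, smul_mul_assoc, mul_smul_comm, one_mul, hτ]
    match_scalars <;> field_simp
  have t3 : S * N * S' = N := by
    have e2 : S * N = d • N := by
      rw [hSN, add_mul, smul_mul_assoc, one_mul, hNN]; module
    rw [e2, hS', mul_sub, mul_smul_comm, mul_one, mul_smul_comm, smul_mul_assoc, hNN]
    match_scalars
    field_simp
    ring
  have tadd : ∀ y z, S * (y + z) * S' = S * y * S' + S * z * S' := by intro y z; rw [mul_add, add_mul]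
  have tsub : ∀ y z, S * (y - z) * S' = S * y * S' - S * z * S' := by intro y z; rw [mul_sub, sub_mul]
  have tsm : ∀ (t : K) y, S * (t • y) * S' = t • (S * y * S') := by
    intro t y; rw [mul_smul_comm, smul_mul_assoc]
  simp only [kp, List.foldr_cons, List.foldr_nil]
  simp only [tadd, tsub, tsm, t0, t1, t2, t3]
  match_scalars <;> field_simp <;> ring

end kill

variable {K : Type*} [Field K] [CharZero K] [IsAlgClosed K]
variable {ι : Type*} [Fintype ι] [DecidableEq ι] {V : ι → Type*} [∀ a, AddCommGroup (V a)]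
  [∀ a, Module K (V a)] [∀ a, FiniteDimensional K (V a)]
variable {Γ : Type*} [Group Γ]

/-- Big monodromy from an own pseudo-reflection for every module. -/
theorem slOwn (ρ : ∀ a, Γ →* Module.End K (V a)) (s : ι → Γ) {c d : ι → K} (hc : ∀ a, c a ≠ 0)
    (hcd : ∀ a, c a ^ 2 ≠ d a ^ 2)
    {φ : ∀ a, Module.Dual K (V a)} {u : ∀ a, V a}
    (hs : ∀ a v, ρ a (s a) v = c a • v + φ a v • u a)
    (hφ : ∀ a, φ a (u a) = d a - c a)
    (irr : ∀ a (W : Submodule K (V a)), (∀ g, ∀ w ∈ W, ρ a (g * s a * g⁻¹) w ∈ W) → W = ⊥ ∨ W = ⊤)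
    (P : ι → ι → List K)
    (hP : ∀ a b, b ≠ a → ∀ x : Module.End K (V b), kp (ρ b (s a)) (ρ b (s a)⁻¹) (P a b) x = 0)
    (hP1 : ∀ a b, b ≠ a → ∀ μ ∈ P a b, μ * c a ≠ d a ∧ μ * d a ≠ c a)
    (L : Submodule K (∀ a, Module.End K (V a))) (hbr : ∀ x ∈ L, ∀ y ∈ L, x * y - y * x ∈ L)
    (hconj : ∀ g, ∀ x ∈ L, (fun a => ρ a g * x a * ρ a g⁻¹) ∈ L)
    (hns : ∀ a, ∃ x ∈ L, ¬ ∃ t : K, x a = t • 1) (z : ∀ a, Module.End K (V a))
    (hz : ∀ a, LinearMap.trace K (V a) (z a) = 0) : z ∈ L := by
  have hcd' : ∀ a, c a ≠ d a := fun a h => hcd a (by rw [h])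
  have hdc : ∀ a, d a - c a ≠ 0 := fun a => sub_ne_zero.mpr (hcd' a).symm
  have hd : ∀ a, d a ≠ 0 := by
    intro a h
    have hu : u a ≠ 0 := by
      intro h0
      have := hφ a
      rw [h0, map_zero] at this
      exact hdc a this.symm
    apply app_ne (ρ a) (s a) hu
    rw [hs, hφ, h, zero_sub, neg_smul, add_neg_cancel]
  have hAB : ∀ a b, ρ b (s a) * ρ b (s a)⁻¹ = 1 := fun a b => by
    rw [← map_mul, mul_inv_cancel, map_one]
  -- the single components
  have main : ∀ a, ∀ z : Module.End K (V a), LinearMap.trace K (V a) z = 0 → Pi.single a z ∈ L := by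
    intro a
    obtain ⟨T, hT⟩ : ∃ T : ∀ b, Module.End K (V b) → Module.End K (V b),
        T = fun b x => ρ b (s a) * x * ρ b (s a)⁻¹ := ⟨_, rfl⟩
    have Tadd : ∀ b x y, T b (x + y) = T b x + T b y := by
      intro b x y; rw [hT]; show _ * _ * _ = _; rw [mul_add, add_mul]
    have Tsub : ∀ b x y, T b (x - y) = T b x - T b y := by
      intro b x y; rw [hT]; show _ * _ * _ = _; rw [mul_sub, sub_mul]
    have Tsmul : ∀ b (t : K) x, T b (t • x) = t • T b x := by
      intro b t x; rw [hT]; show _ * _ * _ = _; rw [mul_smul_comm, smul_mul_assoc]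
    have Tzero : ∀ b, T b 0 = 0 := by
      intro b; rw [hT]; show _ * _ * _ = _; rw [mul_zero, zero_mul]
    have TL : ∀ x ∈ L, ∀ t : K, (fun b => T b (x b) - t • x b) ∈ L := by
      intro x hx t
      rw [hT]
      exact L.sub_mem (hconj (s a) x hx) (L.smul_mem t hx)
    have dec : ∀ (x : Module.End K (V a)), ∃ α β : Module.End K (V a), T a x = x + α + β ∧
        T a α = (d a * (c a)⁻¹) • α ∧ T a β = (c a * (d a)⁻¹) • β ∧
        (∃ (f : Module.Dual K (V a)) (v : V a), α = f.smulRight v) ∧
        (∃ (f : Module.Dual K (V a)) (v : V a), β = f.smulRight v) := by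
      intro x
      rw [hT]
      exact decomp (hAB a a) (hc a) (hd a) (hcd' a) (hs a) (hφ a) x
    -- an eigenvector with rank one at a
    obtain ⟨x, hx, α, μ, hxα, hTα, hμ, hα0, hr⟩ : ∃ x ∈ L, ∃ (α : Module.End K (V a)) (μ : K),
        x a = α ∧ T a α = μ • α ∧ (μ = d a * (c a)⁻¹ ∨ μ = c a * (d a)⁻¹) ∧ α ≠ 0 ∧
        (∃ (f : Module.Dual K (V a)) (v : V a), α = f.smulRight v) := by
      obtain ⟨x, hx, hxT⟩ : ∃ x ∈ L, T a (x a) ≠ x a := by
        by_contra hne
        push Not at hne
        obtain ⟨x, hx, hxn⟩ := hns a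
        apply hxn
        -- x commutes with all conjugates of s
        have hcomm : ∀ g v, x a (ρ a (g * s a * g⁻¹) v) = ρ a (g * s a * g⁻¹) (x a v) := by
          intro g v
          have h := hne _ (hconj g⁻¹ x hx)
          rw [hT] at h
          simp only [inv_inv] at h
          have h' := LinearMap.congr_fun h (ρ a (s a) (ρ a g⁻¹ v))
          simp only [Module.End.mul_apply] at h'
          rw [inv_app, app_inv] at h'
          have h3 := congrArg (ρ a g) h'
          rw [app_inv] at h3
          rw [← mul_app, ← mul_app, ← mul_app, ← mul_app, h3]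
        have hV : Nontrivial (V a) := ⟨⟨u a, 0, by
          intro h0
          have := hφ a
          rw [h0, map_zero] at this
          exact hdc a this.symm⟩⟩
        obtain ⟨t, ht⟩ := Module.End.exists_eigenvalue (x a)
        refine ⟨t, ?_⟩
        rcases irr a (Module.End.eigenspace (x a) t) (by
          intro g w hw
          rw [Module.End.mem_eigenspace_iff] at hw ⊢
          rw [hcomm, hw, map_smul]) with h | h
        · exact absurd h ht
        · ext w
          have : w ∈ Module.End.eigenspace (x a) t := by rw [h]; exact Submodule.mem_top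
          exact Module.End.mem_eigenspace_iff.mp this
      obtain ⟨α, β, e, hα, hβ, rα, rβ⟩ := dec (x a)
      have hy := TL x hx 1
      by_cases hα0 : α = 0
      · refine ⟨_, hy, β, _, ?_, hβ, Or.inr rfl, ?_, rβ⟩
        · show T a (x a) - (1 : K) • x a = β
          rw [e, hα0, one_smul]; abel
        · intro hβ0
          apply hxT
          rw [e, hα0, hβ0, add_zero, add_zero]
      · -- apply T - d / c inverse
        have hy2 := TL _ hy (c a * (d a)⁻¹)
        have hmm : d a * (c a)⁻¹ - c a * (d a)⁻¹ ≠ 0 := by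
          intro h
          apply hcd a
          have h1 := hc a
          have h2 := hd a
          field_simp at h
          linear_combination -h
        refine ⟨_, L.smul_mem (d a * (c a)⁻¹ - c a * (d a)⁻¹)⁻¹ hy2, α, _, ?_, hα, Or.inl rfl, hα0, rα⟩
        show (d a * (c a)⁻¹ - c a * (d a)⁻¹)⁻¹ • (T a (T a (x a) - (1 : K) • x a)
          - (c a * (d a)⁻¹) • (T a (x a) - (1 : K) • x a)) = α
        have e1 : T a (x a) - (1 : K) • x a = α + β := by rw [e, one_smul]; abel
        rw [e1, Tadd, hα, hβ]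
        have e2 : (d a * (c a)⁻¹) • α + (c a * (d a)⁻¹) • β - (c a * (d a)⁻¹) • (α + β)
            = (d a * (c a)⁻¹ - c a * (d a)⁻¹) • α := by module
        rw [e2, smul_smul, inv_mul_cancel₀ hmm, one_smul]
    have hμ1 : μ - 1 ≠ 0 := by
      have h1 := hc a
      have h2 := hd a
      intro h
      apply hcd' a
      rcases hμ with rfl | rfl
      · field_simp at h; linear_combination -h
      · field_simp at h; linear_combination h
    -- the operators on the product
    have hstep : ∀ (Q : List K) (y : ∀ b, Module.End K (V b)), y ∈ L → ∃ y' ∈ L,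
        ∀ b, y' b = kp (ρ b (s a)) (ρ b (s a)⁻¹) Q (y b) := by
      intro Q y hy
      induction Q with
      | nil => exact ⟨y, hy, fun b => rfl⟩
      | cons ν Q ih =>
        obtain ⟨y', hy', h'⟩ := ih
        refine ⟨_, TL y' hy' ν, fun b => ?_⟩
        show T b (y' b) - ν • y' b = kp _ _ (ν :: Q) (y b)
        rw [hT, h']
        rfl
    have hkα : ∀ Q : List K, kp (ρ a (s a)) (ρ a (s a)⁻¹) Q α = ((Q.map fun ν => μ - ν).prod) • α := by
      intro Q
      induction Q with
      | nil => rw [List.map_nil, List.prod_nil, one_smul]; rfl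
      | cons ν Q ih =>
        rw [List.map_cons, List.prod_cons]
        show ρ a (s a) * (kp (ρ a (s a)) (ρ a (s a)⁻¹) Q α) * ρ a (s a)⁻¹
          - ν • (kp (ρ a (s a)) (ρ a (s a)⁻¹) Q α) = _
        rw [ih]
        have e : ρ a (s a) * (((Q.map fun ν => μ - ν).prod) • α) * ρ a (s a)⁻¹
            = ((Q.map fun ν => μ - ν).prod) • μ • α := by
          rw [← hTα, ← Tsmul, hT]
        rw [e]
        module
    have hk0 : ∀ (b : ι) (Q : List K), kp (ρ b (s a)) (ρ b (s a)⁻¹) Q 0 = 0 := by
      intro b Q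
      induction Q with
      | nil => rfl
      | cons ν Q ih =>
        show ρ b (s a) * (kp (ρ b (s a)) (ρ b (s a)⁻¹) Q 0) * ρ b (s a)⁻¹
          - ν • (kp (ρ b (s a)) (ρ b (s a)⁻¹) Q 0) = _
        rw [ih, mul_zero, zero_mul, smul_zero, sub_zero]
    -- kill the other components
    have kill : ∀ S : Finset ι, a ∉ S → ∃ y ∈ L, y a = α ∧ ∀ b ∈ S, y b = 0 := by
      intro S
      induction S using Finset.induction_on with
      | empty => intro _; exact ⟨x, hx, hxα, by simp⟩
      | insert b S hb ih =>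
        intro ha
        have hab : a ≠ b := fun h => ha (by rw [h]; exact Finset.mem_insert_self _ _)
        obtain ⟨y, hy, hya, hyS⟩ := ih fun h => ha (Finset.mem_insert_of_mem h)
        obtain ⟨y', hy', h'⟩ := hstep (P a b) y hy
        have hprod : ((P a b).map fun ν => μ - ν).prod ≠ 0 := by
          apply List.prod_ne_zero
          intro h0
          obtain ⟨ν, hν, h0⟩ := List.mem_map.mp h0
          obtain ⟨q1, q2⟩ := hP1 a b hab.symm ν hν
          have p1 := hc a
          have p2 := hd a
          rcases hμ with rfl | rfl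
          · apply q1
            field_simp at h0; linear_combination -h0
          · apply q2
            field_simp at h0; linear_combination -h0
        refine ⟨_, L.smul_mem (((P a b).map fun ν => μ - ν).prod)⁻¹ hy', ?_, ?_⟩
        · rw [Pi.smul_apply, h', hya, hkα, smul_smul, inv_mul_cancel₀ hprod, one_smul]
        · intro b' hb'
          rw [Pi.smul_apply, h']
          rcases Finset.mem_insert.mp hb' with rfl | hb'
          · rw [hP a b' hab.symm, smul_zero]
          · rw [hyS b' hb', hk0, smul_zero]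
    obtain ⟨y, hy, hya, hyb⟩ := kill (Finset.univ.erase a) (Finset.notMem_erase a _)
    have hys : y = Pi.single a α := by
      funext b
      by_cases hb : b = a
      · subst hb; rw [hya, Pi.single_eq_same]
      · rw [Pi.single_eq_of_ne hb]
        exact hyb b (Finset.mem_erase.mpr ⟨hb, Finset.mem_univ b⟩)
    rw [hys] at hy
    -- the space of single components
    let I : Submodule K (Module.End K (V a)) := L.comap (LinearMap.single K (fun a => Module.End K (V a)) a)
    have memI : ∀ w, w ∈ I ↔ Pi.single a w ∈ L := fun w => Iff.rfl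
    have hμ1' : ¬ ∃ t : K, α = t • 1 := by
      rintro ⟨t, rfl⟩
      apply hα0
      have e : T a (t • 1) = t • 1 := by
        rw [Tsmul, hT]
        show t • (ρ a (s a) * 1 * ρ a (s a)⁻¹) = _
        rw [mul_one, hAB]
      rw [e] at hTα
      have : (μ - 1) • (t • (1 : Module.End K (V a))) = 0 := by rw [sub_smul, one_smul, ← hTα, sub_self]
      exact (smul_eq_zero.mp this).resolve_left hμ1
    intro z hz
    rw [← memI]
    refine sl_one (ρ a) (s a) (hc a) (hcd a) (hs a) (hφ a) (irr a) I ?_ ?_ hy hα0 hr hμ1' z hz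
    · intro x hx y hy
      rw [memI] at hx hy ⊢
      have := hbr _ hx _ hy
      rwa [← Pi.single_mul, ← Pi.single_mul, ← Pi.single_sub] at this
    · intro g x hx
      rw [memI] at hx ⊢
      have h := hconj g _ hx
      have e : (fun b => ρ b g * (Pi.single a x : ∀ a, Module.End K (V a)) b * ρ b g⁻¹)
          = Pi.single a (ρ a g * x * ρ a g⁻¹) := by
        funext b
        by_cases hb : b = a
        · subst hb; rw [Pi.single_eq_same, Pi.single_eq_same]
        · rw [Pi.single_eq_of_ne hb, Pi.single_eq_of_ne hb, mul_zero, zero_mul]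
      rwa [e] at h
  rw [← Finset.univ_sum_single z]
  exact L.sum_mem fun a _ => main a _ (hz a)

/-- The case in which s a acts on every V b as a scalar plus a map of rank at most one. -/
theorem slOwn2 (ρ : ∀ a, Γ →* Module.End K (V a)) (s : ι → Γ) {c d : ι → ι → K}
    (hc : ∀ a b, c a b ≠ 0) (hcd : ∀ a, c a a ^ 2 ≠ d a a ^ 2)
    {φ : ∀ _ b, Module.Dual K (V b)} {u : ∀ _ b, V b}
    (hs : ∀ a b v, ρ b (s a) v = c a b • v + φ a b v • u a b)
    (hφ : ∀ a b, φ a b (u a b) = d a b - c a b)
    (h1 : ∀ a b, b ≠ a → d a b * c a a ≠ d a a * c a b)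
    (h2 : ∀ a b, b ≠ a → d a b * d a a ≠ c a a * c a b)
    (irr : ∀ a (W : Submodule K (V a)), (∀ g, ∀ w ∈ W, ρ a (g * s a * g⁻¹) w ∈ W) → W = ⊥ ∨ W = ⊤)
    (L : Submodule K (∀ a, Module.End K (V a))) (hbr : ∀ x ∈ L, ∀ y ∈ L, x * y - y * x ∈ L)
    (hconj : ∀ g, ∀ x ∈ L, (fun a => ρ a g * x a * ρ a g⁻¹) ∈ L)
    (hns : ∀ a, ∃ x ∈ L, ¬ ∃ t : K, x a = t • 1) (z : ∀ a, Module.End K (V a))
    (hz : ∀ a, LinearMap.trace K (V a) (z a) = 0) : z ∈ L := by
  have hd : ∀ a b, d a b ≠ 0 := by
    intro a b h
    by_cases hu : u a b = 0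
    · have := hφ a b
      rw [hu, map_zero, h, zero_sub] at this
      exact hc a b (neg_eq_zero.mp this.symm)
    · apply app_ne (ρ b) (s a) hu
      rw [hs, hφ, h, zero_sub, neg_smul, add_neg_cancel]
  refine slOwn ρ s (c := fun a => c a a) (d := fun a => d a a) (fun a => hc a a) hcd
    (fun a => hs a a) (fun a => hφ a a) irr
    (fun a b => [1, d a b * (c a b)⁻¹, c a b * (d a b)⁻¹]) ?_ ?_ L hbr hconj hns z hz
  · intro a b _ x
    exact kp_refl (by rw [← map_mul, mul_inv_cancel, map_one]) (hc a b) (hd a b) (hs a b) (hφ a b) x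
  · intro a b hab μ hμ
    have p1 := hc a a
    have p2 := hd a a
    have p3 := hc a b
    have p4 := hd a b
    have q1 := h1 a b hab
    have q2 := h2 a b hab
    simp only [List.mem_cons, List.not_mem_nil, or_false] at hμ
    rcases hμ with rfl | rfl | rfl
    · refine ⟨fun h => hcd a ?_, fun h => hcd a ?_⟩
      · rw [← h]; ring
      · rw [← h]; ring
    · refine ⟨fun h => q1 ?_, fun h => q2 ?_⟩
      · field_simp at h; linear_combination h
      · field_simp at h; linear_combination h
    · refine ⟨fun h => q2 ?_, fun h => q1 ?_⟩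
      · field_simp at h; linear_combination -h
      · field_simp at h; linear_combination -h

end Pool.Agent.TD
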