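import Pool.Agent.Lib_helper48.TD.D1
import Pool.Agent.Lib_helper9.U4.SD3

/-! A transvection: the Lie space contains sl, or there is an alternating form preserved up to
scalars. -/

set_option autoImplicit false
set_option linter.unusedSectionVars false

namespace Pool.Agent.TD

open Module Pool.Agent.OT Pool.Agent.OU Pool.Agent.U4

attribute [local instance 100] LieRing.ofAssociativeRing

variable {K : Type*} [Field K] [CharZero K] [IsAlgClosed K]
variable {V : Type*} [AddCommGroup V] [Module K V] [FiniteDimensional K V]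
variable {Γ : Type*} [Group Γ]

/-- Schur's lemma for a set of rank one maps. -/
theorem tr_schur [Nontrivial V] {ι : Type*} (n : ι → Module.End K V)
    (irr : ∀ W : Submodule K V, (∀ g, ∀ w ∈ W, n g w ∈ W) → W = ⊥ ∨ W = ⊤)
    (z : Module.End K V) (hz : ∀ g, z * n g = n g * z) : ∃ c : K, z = c • 1 := by
  obtain ⟨c, hc⟩ := Module.End.exists_eigenvalue z
  refine ⟨c, ?_⟩
  have h1 : Module.End.eigenspace z c = ⊤ := by
    refine (irr (Module.End.eigenspace z c) ?_).resolve_left hc
    intro g w hw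
    rw [Module.End.mem_eigenspace_iff] at hw ⊢
    have h2 := LinearMap.congr_fun (hz g) w
    rw [Module.End.mul_apply, Module.End.mul_apply, hw, map_smul] at h2
    exact h2
  ext w
  have : w ∈ Module.End.eigenspace z c := by rw [h1]; exact Submodule.mem_top
  exact Module.End.mem_eigenspace_iff.mp this

/-- The data of a system of rank one nilpotents acting irreducibly. -/
structure Sys {ι : Type*} (n : ι → Module.End K V) (v : ι → V) (f : ι → Module.Dual K V) : Prop where
  eq : ∀ g, n g = (f g).smulRight (v g)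
  fv : ∀ g, f g (v g) = 0
  v0 : ∀ g, v g ≠ 0
  f0 : ∀ g, f g ≠ 0
  irr : ∀ W : Submodule K V, (∀ g, ∀ w ∈ W, n g w ∈ W) → W = ⊥ ∨ W = ⊤

section sys

variable {ι : Type*} {n : ι → Module.End K V} {v : ι → V} {f : ι → Module.Dual K V}

theorem Sys.app (S : Sys n v f) (g : ι) (w : V) : n g w = f g w • v g := by
  rw [S.eq]; rfl

theorem Sys.sq (S : Sys n v f) (g : ι) : n g * n g = 0 := by
  ext w
  rw [Module.End.mul_apply, S.app, S.app, map_smul, S.fv, smul_zero, zero_smul]; rfl

theorem Sys.sand (S : Sys n v f) (g : ι) (z : Module.End K V) :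
    n g * z * n g = f g (z (v g)) • n g := by
  ext w
  simp only [Module.End.mul_apply, LinearMap.smul_apply, S.app, map_smul, smul_smul]
  rw [mul_comm]

theorem Sys.tr (S : Sys n v f) (g : ι) (z : Module.End K V) :
    LinearMap.trace K V (n g * z) = f g (z (v g)) := by
  rw [LinearMap.trace_mul_comm]
  have : z * n g = ro (f g) (z (v g)) := by
    ext w
    rw [Module.End.mul_apply, S.app, map_smul, ro_apply]
  rw [this, tr_ro]

/-- The Lie algebra generated. -/
def Sys.G (n : ι → Module.End K V) : LieSubalgebra K (Module.End K V) :=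
  LieSubalgebra.lieSpan K (Module.End K V) (Set.range n)

theorem Sys.memG (n : ι → Module.End K V) (g : ι) : n g ∈ Sys.G n :=
  LieSubalgebra.subset_lieSpan ⟨g, rfl⟩

/-- Induction. -/
theorem Sys.G_le (n : ι → Module.End K V) (I : Submodule K (Module.End K V))
    (hI : ∀ x ∈ I, ∀ y ∈ I, x * y - y * x ∈ I) (h : ∀ g, n g ∈ I) : ∀ x ∈ Sys.G n, x ∈ I := by
  let A : LieSubalgebra K (Module.End K V) :=
    { I with lie_mem' := fun {x y} hx hy => hI x hx y hy }
  have : Sys.G n ≤ A := by
    rw [Sys.G, LieSubalgebra.lieSpan_le]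
    rintro _ ⟨g, rfl⟩
    exact h g
  exact this

theorem Sys.tr0 (S : Sys n v f) : ∀ x ∈ Sys.G n, LinearMap.trace K V x = 0 := by
  refine Sys.G_le n (LinearMap.ker (LinearMap.trace K V)) ?_ ?_
  · intro x _ y _
    rw [LinearMap.mem_ker, map_sub, LinearMap.trace_mul_comm, sub_self]
  · intro g
    rw [LinearMap.mem_ker, S.eq]
    have := tr_ro (f g) (v g)
    rw [S.fv] at this
    exact this

theorem Sys.good [Nontrivial V] (S : Sys n v f) : Good (Sys.G n).toSubmodule :=
  ⟨fun _ hx _ hy => (Sys.G n).lie_mem hx hy,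
    nondeg (Sys.G n) S.tr0 (fun W hW => S.irr W fun g w hw => hW _ (Sys.memG n g) w hw)⟩

theorem Sys.simU [Nontrivial V] (S : Sys n v f) : SimU (Sys.G n).toSubmodule := by
  refine ⟨S.good, S.tr0, fun W hW => S.irr W fun g w hw => hW _ (Sys.memG n g) w hw, ?_⟩
  intro I hIG hI
  by_cases h0 : ∀ z ∈ I, z = 0
  · exact Or.inl h0
  right
  push Not at h0
  obtain ⟨z0, hz0, hz0'⟩ := h0
  -- (1)
  have h1 : ∀ g, ∀ z ∈ I, f g (z (v g)) ≠ 0 → n g ∈ I := by
    intro g z hz h
    have h2 := hI _ (Sys.memG n g) _ (hI _ (Sys.memG n g) z hz)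
    have h3 : n g * (n g * z - z * n g) - (n g * z - z * n g) * n g
        = n g * n g * z - (2 : K) • (n g * z * n g) + z * (n g * n g) := by
      rw [two_smul]; noncomm_ring
    rw [h3, S.sq, S.sand, zero_mul, mul_zero, add_zero, zero_sub, smul_smul, ← neg_smul] at h2
    have h4 : -(2 * f g (z (v g))) ≠ 0 := neg_ne_zero.mpr (mul_ne_zero two_ne_zero h)
    have := I.smul_mem (-(2 * f g (z (v g))))⁻¹ h2
    rwa [smul_smul, inv_mul_cancel₀ h4, one_smul] at this
  -- (2)
  have h2 : ∀ g, n g ∉ I → ∀ z ∈ I, z * n g = n g * z := by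
    intro g hg z hz
    have h3 : n g * z - z * n g = 0 := by
      refine S.good.nd _ (hIG _ (hI _ (Sys.memG n g) z hz)) ?_
      intro y hy
      have h4 : LinearMap.trace K V ((n g * z - z * n g) * y)
          = LinearMap.trace K V (n g * (z * y - y * z)) := by
        rw [sub_mul, mul_sub, map_sub, map_sub]
        rw [mul_assoc, mul_assoc, LinearMap.trace_mul_comm K z, mul_assoc]
      rw [h4, S.tr]
      by_contra hne
      apply hg
      refine h1 g (z * y - y * z) ?_ hne
      have h5 := hI y hy z hz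
      have h6 : z * y - y * z = - (y * z - z * y) := by abel
      rw [h6]; exact I.neg_mem h5
    rw [sub_eq_zero] at h3
    exact h3.symm
  -- (3)
  have h3 : ∃ g, n g ∈ I := by
    by_contra hne
    push Not at hne
    apply hz0'
    obtain ⟨c, hc⟩ := tr_schur n S.irr z0 (fun g => h2 g (hne g) z0 hz0)
    have h4 := S.tr0 z0 (hIG z0 hz0)
    rw [hc, map_smul, LinearMap.trace_one, smul_eq_mul] at h4
    have h5 : (finrank K V : K) ≠ 0 := by
      have := Module.finrank_pos (R := K) (M := V)
      exact_mod_cast this.ne'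
    rw [hc, (mul_eq_zero.mp h4).resolve_right h5, zero_smul]
  -- (4)
  have h4 : ∀ g, n g ∈ I := by
    by_contra hne
    push Not at hne
    obtain ⟨g1, hg1⟩ := hne
    obtain ⟨g0, hg0⟩ := h3
    let W : Submodule K V := Submodule.span K {y | ∃ g, n g ∈ I ∧ y = v g}
    have hkill : ∀ h, n h ∉ I → ∀ g, n g ∈ I → n h (v g) = 0 := by
      intro h hh g hg
      obtain ⟨y, hy⟩ : ∃ y, f g y ≠ 0 := by
        by_contra hne
        push Not at hne
        exact S.f0 g (LinearMap.ext hne)
      have h5 := LinearMap.congr_fun (h2 h hh (n g) hg) y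
      rw [Module.End.mul_apply, Module.End.mul_apply, S.app g y, map_smul, S.app g] at h5
      obtain ⟨c, hc⟩ : ∃ c : K, n h (v g) = c • v g := by
        refine ⟨(f g y)⁻¹ * f g (n h y), ?_⟩
        rw [mul_smul, h5, smul_smul, inv_mul_cancel₀ hy, one_smul]
      have h6 := LinearMap.congr_fun (S.sq h) (v g)
      rw [Module.End.mul_apply, hc, map_smul, hc, smul_smul, LinearMap.zero_apply] at h6
      have h7 : c = 0 := by
        rcases smul_eq_zero.mp h6 with h8 | h8
        · exact mul_self_eq_zero.mp h8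
        · exact absurd h8 (S.v0 g)
      rw [hc, h7, zero_smul]
    have hWk : ∀ h, n h ∉ I → ∀ w ∈ W, n h w = 0 := by
      intro h hh w hw
      have : W ≤ LinearMap.ker (n h) := by
        rw [Submodule.span_le]
        rintro _ ⟨g, hg, rfl⟩
        exact hkill h hh g hg
      exact this hw
    have hWt : W = ⊤ := by
      refine (S.irr W ?_).resolve_left ?_
      · intro h w hw
        by_cases hh : n h ∈ I
        · rw [S.app]
          exact W.smul_mem _ (Submodule.subset_span ⟨h, hh, rfl⟩)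
        · rw [hWk h hh w hw]; exact W.zero_mem
      · intro h
        have : v g0 ∈ W := Submodule.subset_span ⟨g0, hg0, rfl⟩
        rw [h, Submodule.mem_bot] at this
        exact S.v0 g0 this
    obtain ⟨y, hy⟩ : ∃ y, f g1 y ≠ 0 := by
      by_contra hne
      push Not at hne
      exact S.f0 g1 (LinearMap.ext hne)
    have h5 := hWk g1 hg1 y (by rw [hWt]; exact Submodule.mem_top)
    rw [S.app] at h5
    exact (smul_ne_zero hy (S.v0 g1)) h5
  exact Sys.G_le n I (fun x hx y hy => hI x (hIG x hx) y hy) h4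

theorem Sys.tri [Nontrivial V] (S : Sys n v f) (g : ι) :
    ∃ F p q, Tri (Sys.G n).toSubmodule (n g) F p q := by
  obtain ⟨Y, hY, YY, XYX, YXY⟩ := S.good.pair (Sys.memG n g) (S.sq g)
  refine ⟨Y, n g * Y, Y * n g, S.good.brk, Sys.memG n g, hY, rfl, rfl, S.sq g, YY, XYX, ?_, ?_, ?_,
    ?_, ?_⟩
  · rw [← mul_assoc, XYX]
  · rw [YXY]
  · rw [← mul_assoc, YXY]
  · intro a _ h1 h2
    have h3 : a = n g * (Y * a * Y) * n g := by
      have : a = (n g * Y) * a * (Y * n g) := by rw [h1, h2]
      nth_rewrite 1 [this]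
      simp only [mul_assoc]
    rw [S.sand] at h3
    exact ⟨_, h3⟩
  · intro a _ h1 h2
    have h3 : a = Y * (n g * a * n g) * Y := by
      have : a = (Y * n g) * a * (n g * Y) := by rw [h1, h2]
      nth_rewrite 1 [this]
      simp only [mul_assoc]
    rw [S.sand, mul_smul_comm, smul_mul_assoc, YXY] at h3
    exact ⟨_, h3⟩

theorem Sys.rk1 (S : Sys n v f) (g : ι) : rk (n g) = 1 := by
  unfold rk
  obtain ⟨y, hy⟩ : ∃ y, f g y ≠ 0 := by
    by_contra hne
    push Not at hne
    exact S.f0 g (LinearMap.ext hne)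
  have h1 : LinearMap.range (n g) = Submodule.span K {v g} := by
    apply le_antisymm
    · rintro _ ⟨w, rfl⟩
      rw [S.app]
      exact Submodule.smul_mem _ _ (Submodule.mem_span_singleton_self _)
    · rw [Submodule.span_le]
      rintro _ rfl
      refine ⟨(f g y)⁻¹ • y, ?_⟩
      rw [S.app, map_smul, smul_eq_mul, inv_mul_cancel₀ hy, one_smul]
  rw [h1, finrank_span_singleton (S.v0 g)]

/-- The dichotomy for a system. -/
theorem Sys.dich [Nontrivial V] (S : Sys n v f) (g : ι) :
    (∀ x : Module.End K V, LinearMap.trace K V x = 0 → x ∈ Sys.G n) ∨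
    ∃ J : V ≃ₗ[K] Module.Dual K V, (∀ x ∈ Sys.G n, ∀ a b, J (x a) b = - J a (x b)) ∧
      ∀ a b, J a b = - J b a := by
  obtain ⟨F, p, q, D⟩ := S.tri g
  rcases k0_one S.simU D (S.rk1 g) with h | ⟨J, hJ⟩
  · exact Or.inl h
  right
  have hJ' : ∀ x ∈ Sys.G n, ∀ a b, J (x a) b = - J a (x b) := by
    intro x hx a b
    rw [hJ x hx a, ctr_apply]
  refine ⟨J, hJ', ?_⟩
  -- the transposed form
  let T : Module.End K V := J.symm.toLinearMap ∘ₗ (LinearMap.flip J.toLinearMap)
  have hT : ∀ a b, J (T a) b = J b a := by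
    intro a b
    show J (J.symm (LinearMap.flip J.toLinearMap a)) b = _
    rw [LinearEquiv.apply_symm_apply]
    rfl
  obtain ⟨c, hc⟩ := tr_schur n S.irr T (by
    intro h
    ext a
    apply J.injective
    ext b
    rw [Module.End.mul_apply, Module.End.mul_apply, hT, hJ' _ (Sys.memG n h), hT,
      hJ' _ (Sys.memG n h)]
    rw [neg_neg])
  have hJc : ∀ a b, J b a = c * J a b := by
    intro a b
    rw [← hT, hc, LinearMap.smul_apply, Module.End.one_apply, map_smul, LinearMap.smul_apply,
      smul_eq_mul]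
  obtain ⟨a, ha⟩ : ∃ a, f g a ≠ 0 := by
    by_contra hne
    push Not at hne
    exact S.f0 g (LinearMap.ext hne)
  have h1 : ∀ b, f g a * J (v g) b = - (f g b * (c * J (v g) a)) := by
    intro b
    have h2 := hJ' _ (Sys.memG n g) a b
    rw [S.app, S.app, map_smul, map_smul, LinearMap.smul_apply, smul_eq_mul, smul_eq_mul,
      hJc (v g) a] at h2
    exact h2
  have h3 := h1 a
  have h4 : J (v g) a ≠ 0 := by
    intro h
    apply S.v0 g
    apply J.injective
    ext b
    have h5 := h1 b
    rw [h, mul_zero, mul_zero, neg_zero] at h5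
    rw [map_zero, LinearMap.zero_apply]
    exact (mul_eq_zero.mp h5).resolve_left ha
  have h5 : c = -1 := by
    have h6 : f g a * J (v g) a ≠ 0 := mul_ne_zero ha h4
    apply mul_left_cancel₀ h6
    linear_combination h3
  intro a b
  rw [hJc b a, h5]
  ring

end sys

/-- **A transvection.** Let the group act, let the conjugates of the transvection 1 + v (x) f act
irreducibly, and let L be a Lie space of endomorphisms stable under the group that contains
v (x) f. Then L contains all maps of trace zero, or there is a nondegenerate alternating form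
preserved up to scalars. -/
theorem trans_dich (ρ : Γ →* Module.End K V) {v : V} {f : Module.Dual K V} (hv : v ≠ 0)
    (hf : f ≠ 0) (hfv : f v = 0)
    (irr : ∀ W : Submodule K V, (∀ g, ∀ w ∈ W, f (ρ g⁻¹ w) • ρ g v ∈ W) → W = ⊥ ∨ W = ⊤)
    (L : Submodule K (Module.End K V)) (hbr : ∀ x ∈ L, ∀ y ∈ L, x * y - y * x ∈ L)
    (hconj : ∀ g, ∀ x ∈ L, ρ g * x * ρ g⁻¹ ∈ L) (hn : (f.smulRight v : Module.End K V) ∈ L) :
    (∀ z : Module.End K V, LinearMap.trace K V z = 0 → z ∈ L) ∨
    ∃ (J : V ≃ₗ[K] Module.Dual K V) (μ : Γ →* K), (∀ a b, J a b = - J b a) ∧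
      (∀ a b, J (f a • v) b = - J a (f b • v)) ∧
      ∀ g a b, J (ρ g a) (ρ g b) = μ g * J a b := by
  have : Nontrivial V := ⟨⟨v, 0, hv⟩⟩
  obtain ⟨n, hn'⟩ : ∃ n : Γ → Module.End K V, n = fun g => ρ g * (f.smulRight v) * ρ g⁻¹ := ⟨_, rfl⟩
  have hng : ∀ g, n g = ρ g * (f.smulRight v) * ρ g⁻¹ := fun g => by rw [hn']
  have S : Sys n (fun g => ρ g v) (fun g => f ∘ₗ ρ g⁻¹) := by
    refine ⟨?_, ?_, ?_, ?_, ?_⟩
    · intro g
      rw [hng]
      ext w
      simp [Module.End.mul_apply]
    · intro g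
      rw [LinearMap.comp_apply, inv_app, hfv]
    · intro g
      exact app_ne ρ g hv
    · intro g h
      apply hf
      ext w
      have := LinearMap.congr_fun h (ρ g w)
      rwa [LinearMap.comp_apply, inv_app] at this
    · intro W hW
      refine irr W ?_
      intro g w hw
      have := hW g w hw
      rw [hng] at this
      simpa [Module.End.mul_apply] using this
  have hGL : ∀ x ∈ Sys.G n, x ∈ L := by
    refine Sys.G_le n L hbr ?_
    intro g
    rw [hng]
    exact hconj g _ hn
  have hinv : ∀ g, ρ g⁻¹ * ρ g = 1 := fun g => by rw [← map_mul, inv_mul_cancel, map_one]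
  have hinv' : ∀ g, ρ g * ρ g⁻¹ = 1 := fun g => by rw [← map_mul, mul_inv_cancel, map_one]
  have hGc : ∀ g, ∀ x ∈ Sys.G n, ρ g * x * ρ g⁻¹ ∈ Sys.G n := by
    intro g
    let I : Submodule K (Module.End K V) :=
      { carrier := {x | ρ g * x * ρ g⁻¹ ∈ Sys.G n}
        zero_mem' := by
          show ρ g * 0 * ρ g⁻¹ ∈ Sys.G n
          rw [mul_zero, zero_mul]; exact (Sys.G n).zero_mem
        add_mem' := by
          intro a b ha hb
          show ρ g * (a + b) * ρ g⁻¹ ∈ Sys.G n
          rw [mul_add, add_mul]; exact (Sys.G n).add_mem ha hb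
        smul_mem' := by
          intro c a ha
          show ρ g * (c • a) * ρ g⁻¹ ∈ Sys.G n
          rw [mul_smul_comm, smul_mul_assoc]; exact (Sys.G n).smul_mem c ha }
    have hmul : ∀ x y : Module.End K V,
        ρ g * (x * y) * ρ g⁻¹ = (ρ g * x * ρ g⁻¹) * (ρ g * y * ρ g⁻¹) := by
      intro x y
      calc ρ g * (x * y) * ρ g⁻¹ = ρ g * x * 1 * y * ρ g⁻¹ := by
            rw [mul_one]; simp only [mul_assoc]
        _ = ρ g * x * (ρ g⁻¹ * ρ g) * y * ρ g⁻¹ := by rw [hinv]
        _ = _ := by simp only [mul_assoc]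
    refine Sys.G_le n I ?_ ?_
    · intro x hx y hy
      show ρ g * (x * y - y * x) * ρ g⁻¹ ∈ Sys.G n
      rw [mul_sub, sub_mul, hmul, hmul]
      exact (Sys.G n).lie_mem hx hy
    · intro h
      show ρ g * n h * ρ g⁻¹ ∈ Sys.G n
      have : ρ g * n h * ρ g⁻¹ = n (g * h) := by
        rw [hng, hng, mul_inv_rev, map_mul, map_mul]
        simp only [mul_assoc]
      rw [this]
      exact Sys.memG n _
  rcases S.dich 1 with h | ⟨J, hJ, halt⟩
  · left
    intro z hz
    exact hGL z (h z hz)
  right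
  have n1 : ∀ a, n 1 a = f a • v := by
    intro a
    rw [hng, inv_one, map_one, one_mul, mul_one]
    rfl
  have hm : ∀ g, ∃ m : K, ∀ a b, J (ρ g a) (ρ g b) = m * J a b := by
    intro g
    let T : Module.End K V := J.symm.toLinearMap ∘ₗ (ρ g).dualMap ∘ₗ J.toLinearMap ∘ₗ (ρ g)
    have hT : ∀ a b, J (T a) b = J (ρ g a) (ρ g b) := by
      intro a b
      show J (J.symm ((ρ g).dualMap (J (ρ g a)))) b = _
      rw [LinearEquiv.apply_symm_apply]
      rfl
    obtain ⟨m, hm⟩ := tr_schur n S.irr T (by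
      intro h
      ext a
      apply J.injective
      ext b
      have e : ∀ c, ρ g (n h c) = (ρ g * n h * ρ g⁻¹) (ρ g c) := by
        intro c
        rw [Module.End.mul_apply, Module.End.mul_apply, inv_app]
      rw [Module.End.mul_apply, Module.End.mul_apply, hT, hJ _ (Sys.memG n h), hT, e, e,
        hJ _ (hGc g _ (Sys.memG n h))])
    refine ⟨m, fun a b => ?_⟩
    rw [← hT, hm, LinearMap.smul_apply, Module.End.one_apply, map_smul, LinearMap.smul_apply,
      smul_eq_mul]
  choose m hm using hm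
  obtain ⟨b0, hb0⟩ : ∃ b0, J v b0 ≠ 0 := by
    by_contra hne
    push Not at hne
    apply hv
    apply J.injective
    ext b
    rw [hne, map_zero, LinearMap.zero_apply]
  refine ⟨J, { toFun := m, map_one' := ?_, map_mul' := ?_ }, halt, ?_, hm⟩
  · have := hm 1 v b0
    rw [map_one, Module.End.one_apply, Module.End.one_apply] at this
    exact mul_right_cancel₀ hb0 (by rw [← this, one_mul])
  · intro g h
    have h1 := hm (g * h) v b0
    rw [← mul_app, ← mul_app, hm, hm, ← mul_assoc] at h1
    exact (mul_right_cancel₀ hb0 h1).symm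
  · intro a b
    rw [← n1, ← n1]
    exact hJ _ (Sys.memG n 1) a b

end Pool.Agent.TD
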