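import Pool.Agent.Lib_helper48.TD.D5
import Pool.Agent.Lib_helper48.TD.D6
import Pool.Agent.Lib_helper9.U4.Sl

/-! Several modules, pseudo-reflections and transvections. -/

set_option autoImplicit false
set_option linter.unusedSectionVars false

namespace Pool.Agent.TD

open Module Pool.Agent.U4

section one

variable {K : Type*} [Field K] [CharZero K]
variable {V : Type*} [AddCommGroup V] [Module K V] [FiniteDimensional K V]

/-- The maps of trace zero are sums of brackets of maps of trace zero. -/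
theorem sl_perf (I : Submodule K (Module.End K V))
    (h : ∀ x y : Module.End K V, LinearMap.trace K V x = 0 → LinearMap.trace K V y = 0 →
      x * y - y * x ∈ I) (z : Module.End K V) (hz : LinearMap.trace K V z = 0) : z ∈ I := by
  refine of_ro ?_ z hz
  intro α w hαw
  by_cases hα : α = 0
  · have : ro α w = 0 := by rw [hα]; ext x; simp [ro_apply]
    rw [this]; exact I.zero_mem
  by_cases hw : w = 0
  · have : ro α w = 0 := by rw [hw]; ext x; simp [ro_apply]
    rw [this]; exact I.zero_mem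
  obtain ⟨u, hu⟩ : ∃ u, α u = 1 := by
    obtain ⟨x, hx⟩ : ∃ x, α x ≠ 0 := by
      by_contra hne
      push Not at hne
      exact hα (LinearMap.ext hne)
    exact ⟨(α x)⁻¹ • x, by rw [map_smul, smul_eq_mul, inv_mul_cancel₀ hx]⟩
  obtain ⟨β₀, hβ₀⟩ := exists_dual (K := K) hw
  obtain ⟨β, hβ⟩ : ∃ β, β = β₀ - β₀ u • α := ⟨_, rfl⟩
  have b1 : β w = 1 := by rw [hβ]; simp [hβ₀, hαw]
  have b2 : β u = 0 := by rw [hβ]; simp [hu]
  have h1 := h (ro α u - ro β w) (ro α w) (by rw [map_sub, tr_ro, tr_ro, hu, b1, sub_self])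
    (by rw [tr_ro, hαw])
  have h2 : (ro α u - ro β w) * ro α w - ro α w * (ro α u - ro β w) = (-2 : K) • ro α w := by
    rw [sub_mul, mul_sub, ro_mul, ro_mul, ro_mul, ro_mul, hαw, hu, b1]
    module
  rw [h2] at h1
  have := I.smul_mem (-2 : K)⁻¹ h1
  rwa [smul_smul, inv_mul_cancel₀ (by norm_num), one_smul] at this

end one

variable {K : Type*} [Field K] [CharZero K] [IsAlgClosed K]
variable {ι : Type*} [Fintype ι] [DecidableEq ι] {V : ι → Type*} [∀ a, AddCommGroup (V a)]
  [∀ a, Module K (V a)] [∀ a, FiniteDimensional K (V a)]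
variable {Γ : Type*} [Group Γ]

/-- Part of the modules is treated separately (predicate T), the others with pseudo-reflections. -/
theorem slMix (ρ : ∀ a, Γ →* Module.End K (V a)) (T : ι → Prop) (s : ι → Γ) {c d : ι → ι → K}
    (hc : ∀ a b, c a b ≠ 0) (hcd : ∀ a, ¬ T a → c a a ^ 2 ≠ d a a ^ 2)
    {φ : ∀ _ b, Module.Dual K (V b)} {u : ∀ _ b, V b}
    (hs : ∀ a b v, ¬ T a → ¬ T b → ρ b (s a) v = c a b • v + φ a b v • u a b)
    (hφ : ∀ a b, ¬ T a → ¬ T b → φ a b (u a b) = d a b - c a b)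
    (h1 : ∀ a b, ¬ T a → ¬ T b → b ≠ a → d a b * c a a ≠ d a a * c a b)
    (h2 : ∀ a b, ¬ T a → ¬ T b → b ≠ a → d a b * d a a ≠ c a a * c a b)
    (irr : ∀ a, ¬ T a → ∀ (W : Submodule K (V a)),
      (∀ g, ∀ w ∈ W, ρ a (g * s a * g⁻¹) w ∈ W) → W = ⊥ ∨ W = ⊤)
    (L : Submodule K (∀ a, Module.End K (V a))) (hbr : ∀ x ∈ L, ∀ y ∈ L, x * y - y * x ∈ L)
    (hconj : ∀ g, ∀ x ∈ L, (fun a => ρ a g * x a * ρ a g⁻¹) ∈ L)
    (hns : ∀ a, ¬ T a → ∃ x ∈ L, ¬ ∃ t : K, x a = t • 1)
    (hT : ∀ a, T a → ∀ z : Module.End K (V a), LinearMap.trace K (V a) z = 0 → Pi.single a z ∈ L)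
    (z : ∀ a, Module.End K (V a))
    (hz : ∀ a, LinearMap.trace K (V a) (z a) = 0) : z ∈ L := by
  classical
  let R : (∀ a, Module.End K (V a)) →ₗ[K] (∀ a : {a // ¬ T a}, Module.End K (V a)) :=
    { toFun := fun x a => x a
      map_add' := fun _ _ => rfl
      map_smul' := fun _ _ => rfl }
  have key : ∀ z' : ∀ a : {a // ¬ T a}, Module.End K (V a),
      (∀ a : {a // ¬ T a}, LinearMap.trace K (V a) (z' a) = 0) → z' ∈ L.map R := by
    refine slOwn2 (fun a : {a // ¬ T a} => ρ a) (fun a => s a) (c := fun a b => c a b)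
      (d := fun a b => d a b) (φ := fun a b => φ a b) (u := fun a b => u a b)
      (fun a b => hc a b) (fun a => hcd a a.2) (fun a b v => hs a b v a.2 b.2)
      (fun a b => hφ a b a.2 b.2) (fun a b hab => h1 a b a.2 b.2 fun h => hab (Subtype.ext h))
      (fun a b hab => h2 a b a.2 b.2 fun h => hab (Subtype.ext h)) (fun a => irr a a.2) (L.map R)
      ?_ ?_ ?_
    · rintro _ ⟨x, hx, rfl⟩ _ ⟨y, hy, rfl⟩
      exact ⟨x * y - y * x, hbr x hx y hy, rfl⟩
    · rintro g _ ⟨x, hx, rfl⟩
      exact ⟨_, hconj g x hx, rfl⟩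
    · intro a
      obtain ⟨x, hx, hxn⟩ := hns a a.2
      exact ⟨R x, ⟨x, hx, rfl⟩, hxn⟩
  have main : ∀ a, ∀ z : Module.End K (V a), LinearMap.trace K (V a) z = 0 → Pi.single a z ∈ L := by
    intro a
    by_cases ha : T a
    · exact hT a ha
    let I : Submodule K (Module.End K (V a)) :=
      L.comap (LinearMap.single K (fun a => Module.End K (V a)) a)
    have memI : ∀ x, x ∈ I ↔ (Pi.single a x : ∀ a, Module.End K (V a)) ∈ L := fun x => Iff.rfl
    suffices hI : ∀ z : Module.End K (V a), LinearMap.trace K (V a) z = 0 → z ∈ I from hI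
    refine sl_perf I ?_
    intro x y hx hy
    rw [memI]
    have get : ∀ x : Module.End K (V a), LinearMap.trace K (V a) x = 0 →
        ∃ X ∈ L, X a = x ∧ ∀ b, ¬ T b → b ≠ a → X b = 0 := by
      intro x hx
      obtain ⟨X, hX, hXR⟩ := key (Pi.single ⟨a, ha⟩ x) (by
        intro b
        by_cases hb : b = ⟨a, ha⟩
        · subst hb; rw [Pi.single_eq_same]; exact hx
        · rw [Pi.single_eq_of_ne hb, map_zero])
      refine ⟨X, hX, ?_, ?_⟩
      · have := congrFun hXR ⟨a, ha⟩
        rw [Pi.single_eq_same] at this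
        exact this
      · intro b hb hba
        have := congrFun hXR ⟨b, hb⟩
        rw [Pi.single_eq_of_ne (fun h => hba (congrArg Subtype.val h))] at this
        exact this
    obtain ⟨X, hX, hXa, hX0⟩ := get x hx
    obtain ⟨Y, hY, hYa, hY0⟩ := get y hy
    have e : (Pi.single a (x * y - y * x) : ∀ a, Module.End K (V a)) = (X * Y - Y * X)
        - ∑ b, (if T b then Pi.single b (X b * Y b - Y b * X b) else 0) := by
      funext b
      rw [Pi.sub_apply, Finset.sum_apply]
      have h3 : ∀ b', (if T b' then (Pi.single b' (X b' * Y b' - Y b' * X b') :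
          ∀ a, Module.End K (V a)) else 0) b = if b' = b then (if T b then
          X b * Y b - Y b * X b else 0) else 0 := by
        intro b'
        by_cases hb : b' = b
        · subst hb
          rw [if_pos rfl]
          split_ifs
          · rw [Pi.single_eq_same]
          · rfl
        · rw [if_neg hb]
          split_ifs
          · rw [Pi.single_eq_of_ne (Ne.symm hb)]
          · rfl
      rw [Finset.sum_congr rfl fun b' _ => h3 b', Finset.sum_ite_eq' , if_pos (Finset.mem_univ _)]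
      by_cases hb : b = a
      · subst hb
        rw [Pi.single_eq_same, if_neg ha, sub_zero, Pi.sub_apply, Pi.mul_apply, Pi.mul_apply, hXa,
          hYa]
      · rw [Pi.single_eq_of_ne hb, Pi.sub_apply, Pi.mul_apply, Pi.mul_apply]
        by_cases hbT : T b
        · rw [if_pos hbT, sub_self]
        · rw [if_neg hbT, hX0 b hbT hb, hY0 b hbT hb, mul_zero, sub_self, sub_zero]
    rw [e]
    refine L.sub_mem (hbr X hX Y hY) (L.sum_mem fun b _ => ?_)
    split_ifs with hb
    · refine hT b hb _ ?_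
      rw [map_sub, LinearMap.trace_mul_comm, sub_self]
    · exact L.zero_mem
  rw [← Finset.univ_sum_single z]
  exact L.sum_mem fun a _ => main a _ (hz a)

/-- **A transvection that acts trivially on the other modules.** -/
theorem slTrans (ρ : ∀ a, Γ →* Module.End K (V a)) (a : ι) {v : V a} {f : Module.Dual K (V a)}
    (hv : v ≠ 0) (hf : f ≠ 0) (hfv : f v = 0)
    (irr : ∀ W : Submodule K (V a), (∀ g, ∀ w ∈ W, f (ρ a g⁻¹ w) • ρ a g v ∈ W) → W = ⊥ ∨ W = ⊤)
    (nof : ∀ (J : V a ≃ₗ[K] Module.Dual K (V a)) (μ : Γ →* K), (∀ x y, J x y = - J y x) →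
      (∀ x y, J (f x • v) y = - J x (f y • v)) →
      (∀ g x y, J (ρ a g x) (ρ a g y) = μ g * J x y) → False)
    (L : Submodule K (∀ a, Module.End K (V a))) (hbr : ∀ x ∈ L, ∀ y ∈ L, x * y - y * x ∈ L)
    (hconj : ∀ g, ∀ x ∈ L, (fun a => ρ a g * x a * ρ a g⁻¹) ∈ L)
    (hn : (Pi.single a (f.smulRight v) : ∀ a, Module.End K (V a)) ∈ L)
    (z : Module.End K (V a)) (hz : LinearMap.trace K (V a) z = 0) :
    (Pi.single a z : ∀ a, Module.End K (V a)) ∈ L := by
  let I : Submodule K (Module.End K (V a)) :=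
    L.comap (LinearMap.single K (fun a => Module.End K (V a)) a)
  have memI : ∀ x, x ∈ I ↔ (Pi.single a x : ∀ a, Module.End K (V a)) ∈ L := fun x => Iff.rfl
  have hbI : ∀ x ∈ I, ∀ y ∈ I, x * y - y * x ∈ I := by
    intro x hx y hy
    rw [memI] at hx hy ⊢
    have e : (Pi.single a (x * y - y * x) : ∀ a, Module.End K (V a)) =
        Pi.single a x * Pi.single a y - Pi.single a y * Pi.single a x := by
      funext b
      by_cases hb : b = a
      · subst hb
        simp only [Pi.sub_apply, Pi.mul_apply, Pi.single_eq_same]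
      · simp only [Pi.sub_apply, Pi.mul_apply, Pi.single_eq_of_ne hb, mul_zero, sub_zero]
    rw [e]
    exact hbr _ hx _ hy
  have hcI : ∀ g, ∀ x ∈ I, ρ a g * x * ρ a g⁻¹ ∈ I := by
    intro g x hx
    rw [memI] at hx ⊢
    have h := hconj g _ hx
    have e : (fun b => ρ b g * (Pi.single a x : ∀ a, Module.End K (V a)) b * ρ b g⁻¹)
        = Pi.single a (ρ a g * x * ρ a g⁻¹) := by
      funext b
      by_cases hb : b = a
      · subst hb; rw [Pi.single_eq_same, Pi.single_eq_same]
      · rw [Pi.single_eq_of_ne hb, Pi.single_eq_of_ne hb, mul_zero, zero_mul]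
    rwa [e] at h
  rcases trans_dich (ρ a) hv hf hfv irr I hbI hcI hn with h | ⟨J, μ, h1, h2, h3⟩
  · exact h z hz
  · exact (nof J μ h1 h2 h3).elim

end Pool.Agent.TD
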