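import Mathlib

/-! A rank one map and a group: the block decomposition attached to them, and the irreducibility
of the set of conjugates of the rank one map. -/

set_option autoImplicit false

namespace Pool.Agent.TD

open Module

variable {K : Type*} [Field K] {V : Type*} [AddCommGroup V] [Module K V]
variable {Γ : Type*} [Group Γ]

/-- The subgroup generated by the elements x with f (x v) nonzero. -/
def Qd (ρ : Γ →* Module.End K V) (v : V) (f : Module.Dual K V) : Subgroup Γ :=
  Subgroup.closure {x | f (ρ x v) ≠ 0}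

/-- A system of blocks indexed by the cosets of Q, permuted by the group. -/
structure Blocks (ρ : Γ →* Module.End K V) (Q : Subgroup Γ) (B : Γ ⧸ Q → Submodule K V) : Prop where
  ind : iSupIndep B
  top : ⨆ c, B c = ⊤
  ne : ∀ c, B c ≠ ⊥
  map : ∀ (g : Γ) c, (B c).map (ρ g) = B (g • c)

theorem mul_app (ρ : Γ →* Module.End K V) (g h : Γ) (v : V) : ρ g (ρ h v) = ρ (g * h) v := by
  rw [map_mul, Module.End.mul_apply]

theorem inv_app (ρ : Γ →* Module.End K V) (g : Γ) (v : V) : ρ g⁻¹ (ρ g v) = v := by
  rw [mul_app, inv_mul_cancel, map_one, Module.End.one_apply]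

theorem app_inv (ρ : Γ →* Module.End K V) (g : Γ) (v : V) : ρ g (ρ g⁻¹ v) = v := by
  rw [mul_app, mul_inv_cancel, map_one, Module.End.one_apply]

theorem app_ne (ρ : Γ →* Module.End K V) (g : Γ) {v : V} (hv : v ≠ 0) : ρ g v ≠ 0 := by
  intro h
  apply hv
  rw [← inv_app ρ g v, h, map_zero]

/-- No nonzero vector is killed by all conjugates of f. -/
theorem sep {ρ : Γ →* Module.End K V}
    (irr : ∀ W : Submodule K V, (∀ g, ∀ w ∈ W, ρ g w ∈ W) → W = ⊥ ∨ W = ⊤)
    {f : Module.Dual K V} (hf : f ≠ 0) {w : V} (hw : ∀ g, f (ρ g⁻¹ w) = 0) : w = 0 := by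
  let N : Submodule K V := ⨅ g : Γ, LinearMap.ker (f ∘ₗ ρ g⁻¹)
  have memN : ∀ x, x ∈ N ↔ ∀ g, f (ρ g⁻¹ x) = 0 := by
    intro x
    simp only [N, Submodule.mem_iInf, LinearMap.mem_ker, LinearMap.comp_apply]
  rcases irr N (by
    intro g x hx
    rw [memN] at hx ⊢
    intro h
    rw [mul_app]
    have := hx (g⁻¹ * h)
    rwa [mul_inv_rev, inv_inv] at this) with h | h
  · have : w ∈ N := (memN w).mpr hw
    rwa [h, Submodule.mem_bot] at this
  · exfalso
    apply hf
    ext x
    have : x ∈ N := by rw [h]; exact Submodule.mem_top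
    have h1 := (memN x).mp this 1
    rwa [inv_one, map_one, Module.End.one_apply] at h1

theorem blocks {ρ : Γ →* Module.End K V}
    (irr : ∀ W : Submodule K V, (∀ g, ∀ w ∈ W, ρ g w ∈ W) → W = ⊥ ∨ W = ⊤)
    {v : V} {f : Module.Dual K V} (hv : v ≠ 0) (hf : f ≠ 0) :
    ∃ B, Blocks ρ (Qd ρ v f) B := by
  let B : Γ ⧸ (Qd ρ v f) → Submodule K V := fun c =>
    Submodule.span K {y | ∃ g : Γ, (g : Γ ⧸ (Qd ρ v f)) = c ∧ y = ρ g v}
  have key : ∀ (g : Γ) c, (g : Γ ⧸ (Qd ρ v f)) ≠ c → ∀ w ∈ B c, f (ρ g⁻¹ w) = 0 := by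
    intro g c hgc w hw
    have : B c ≤ LinearMap.ker (f ∘ₗ ρ g⁻¹) := by
      rw [Submodule.span_le]
      rintro y ⟨h, hh, rfl⟩
      show _ ∈ LinearMap.ker _
      rw [LinearMap.mem_ker, LinearMap.comp_apply, mul_app]
      by_contra hne
      apply hgc
      rw [← hh, QuotientGroup.eq]
      exact Subgroup.subset_closure hne
    exact this hw
  have hmap : ∀ (g : Γ) c, (B c).map (ρ g) = B (g • c) := by
    intro g c
    show Submodule.map (ρ g) (Submodule.span K _) = Submodule.span K _
    rw [Submodule.map_span]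
    congr 1
    ext y
    constructor
    · rintro ⟨z, ⟨h, hh, rfl⟩, rfl⟩
      exact ⟨g * h, by rw [← hh]; rfl, mul_app ρ g h v⟩
    · rintro ⟨h, hh, rfl⟩
      refine ⟨ρ (g⁻¹ * h) v, ⟨g⁻¹ * h, ?_, rfl⟩, ?_⟩
      · have : ((g⁻¹ * h : Γ) : Γ ⧸ (Qd ρ v f)) = g⁻¹ • (h : Γ ⧸ (Qd ρ v f)) := rfl
        rw [this, hh, inv_smul_smul]
      · rw [mul_app, mul_inv_cancel_left]
  refine ⟨B, ?_, ?_, ?_, hmap⟩
  · intro i
    rw [Submodule.disjoint_def]
    intro w hw1 hw2
    apply sep irr hf
    intro g
    by_cases hg : (g : Γ ⧸ (Qd ρ v f)) = i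
    · have : (⨆ j, ⨆ (_ : j ≠ i), B j) ≤ LinearMap.ker (f ∘ₗ ρ g⁻¹) := by
        apply iSup_le
        intro j
        apply iSup_le
        intro hj x hx
        rw [LinearMap.mem_ker, LinearMap.comp_apply]
        exact key g j (by rw [hg]; exact hj.symm) x hx
      exact this hw2
    · exact key g i hg w hw1
  · rcases irr (⨆ c, B c) (by
      intro g w hw
      have h1 : (⨆ c, B c).map (ρ g) ≤ ⨆ c, B c := by
        rw [Submodule.map_iSup]
        apply iSup_le
        intro c
        rw [hmap]
        exact le_iSup B _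
      exact h1 (Submodule.mem_map_of_mem hw)) with h | h
    · exfalso
      have h1 : v ∈ B ((1 : Γ) : Γ ⧸ (Qd ρ v f)) := Submodule.subset_span ⟨1, rfl, by
        rw [map_one, Module.End.one_apply]⟩
      have h2 : v ∈ ⨆ c, B c := (le_iSup B _) h1
      rw [h, Submodule.mem_bot] at h2
      exact hv h2
    · exact h
  · intro c hc
    obtain ⟨g, rfl⟩ := QuotientGroup.mk_surjective c
    have h1 : ρ g v ∈ B (g : Γ ⧸ (Qd ρ v f)) := Submodule.subset_span ⟨g, rfl, rfl⟩
    rw [hc, Submodule.mem_bot] at h1
    exact app_ne ρ g hv h1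

/-- If the group Q is everything then the conjugates of the rank one map act irreducibly. -/
theorem irr_of_top [FiniteDimensional K V] {ρ : Γ →* Module.End K V}
    (irr : ∀ W : Submodule K V, (∀ g, ∀ w ∈ W, ρ g w ∈ W) → W = ⊥ ∨ W = ⊤)
    {v : V} {f : Module.Dual K V} (hv : v ≠ 0) (hf : f ≠ 0) (hQ : Qd ρ v f = ⊤)
    (W : Submodule K V) (hW : ∀ g, ∀ w ∈ W, f (ρ g⁻¹ w) • ρ g v ∈ W) : W = ⊥ ∨ W = ⊤ := by
  by_cases hW0 : W = ⊥
  · exact Or.inl hW0
  right
  obtain ⟨w, hw, hw0⟩ := (Submodule.ne_bot_iff W).mp hW0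
  have hcan : ∀ g, ∀ w ∈ W, f (ρ g⁻¹ w) ≠ 0 → ρ g v ∈ W := by
    intro g w hw h
    have := W.smul_mem (f (ρ g⁻¹ w))⁻¹ (hW g w hw)
    rwa [smul_smul, inv_mul_cancel₀ h, one_smul] at this
  obtain ⟨g, hg⟩ : ∃ g, ρ g v ∈ W := by
    by_contra hne
    push Not at hne
    apply hw0
    apply sep irr hf
    intro g
    by_contra h
    exact hne g (hcan g w hw h)
  let M : Submonoid Γ := Submonoid.closure {x | f (ρ x⁻¹ v) ≠ 0}
  let U : Submodule K V := Submodule.span K {y | ∃ m ∈ M, y = ρ m v}
  let T : Submonoid Γ :=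
    { carrier := {m | ∀ g, ρ g v ∈ W → ρ (g * m) v ∈ W}
      mul_mem' := by
        intro a b ha hb g hg
        rw [← mul_assoc]
        exact hb _ (ha g hg)
      one_mem' := by
        intro g hg
        rwa [mul_one] }
  have hMT : M ≤ T := by
    rw [Submonoid.closure_le]
    intro x hx g hg
    refine hcan (g * x) (ρ g v) hg ?_
    rw [mul_app, mul_inv_rev, mul_assoc, inv_mul_cancel, mul_one]
    exact hx
  -- U is stable
  let St : Subgroup Γ :=
    { carrier := {g | U.map (ρ g) = U}
      mul_mem' := by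
        intro a b ha hb
        show U.map (ρ (a * b)) = U
        have : ρ (a * b) = ρ a ∘ₗ ρ b := by rw [map_mul]; rfl
        rw [this, Submodule.map_comp]
        rw [show U.map (ρ b) = U from hb]
        exact ha
      one_mem' := by
        show U.map (ρ 1) = U
        rw [map_one]
        exact Submodule.map_id U
      inv_mem' := by
        intro a ha
        show U.map (ρ a⁻¹) = U
        nth_rewrite 1 [← show U.map (ρ a) = U from ha]
        rw [← Submodule.map_comp]
        have : ρ a⁻¹ ∘ₗ ρ a = LinearMap.id := by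
          ext x
          exact inv_app ρ a x
        rw [this, Submodule.map_id] }
  have hstab : ∀ m ∈ M, U.map (ρ m) = U := by
    intro m hm
    apply Submodule.eq_of_le_of_finrank_eq
    · rw [Submodule.map_span, Submodule.span_le]
      rintro y ⟨z, ⟨m', hm', rfl⟩, rfl⟩
      exact Submodule.subset_span ⟨m * m', M.mul_mem hm hm', mul_app ρ m m' v⟩
    · have hinj : Function.Injective (ρ m) := by
        intro x y hxy
        rw [← inv_app ρ m x, hxy, inv_app]
      exact (Submodule.equivMapOfInjective (ρ m) hinj U).finrank_eq.symm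
  have hSt : ∀ g, U.map (ρ g) = U := by
    have h1 : Qd ρ v f ≤ St := by
      rw [Qd, Subgroup.closure_le]
      intro x hx
      have h2 : x⁻¹ ∈ M := Submonoid.subset_closure (by
        show f (ρ x⁻¹⁻¹ v) ≠ 0
        rw [inv_inv]; exact hx)
      have h3 : x⁻¹ ∈ St := hstab _ h2
      rw [← inv_inv x]
      exact St.inv_mem h3
    intro g
    exact h1 (by rw [hQ]; exact Subgroup.mem_top g)
  have hvU : v ∈ U := Submodule.subset_span ⟨1, M.one_mem, by rw [map_one, Module.End.one_apply]⟩
  have hU : U = ⊤ := by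
    rcases irr U (by
      intro g w hw
      rw [← hSt g]
      exact Submodule.mem_map_of_mem hw) with h | h
    · rw [h, Submodule.mem_bot] at hvU
      exact absurd hvU hv
    · exact h
  rw [eq_top_iff, ← hU, ← hSt g, Submodule.map_span, Submodule.span_le]
  rintro y ⟨z, ⟨m, hm, rfl⟩, rfl⟩
  show ρ g (ρ m v) ∈ W
  rw [mul_app]
  exact hMT hm g hg

/-- A set of endomorphisms closed under products, acting irreducibly and containing a map of rank
one, contains all endomorphisms. -/
theorem all_of_rank_one [FiniteDimensional K V] (A : Submodule K (Module.End K V))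
    (hA : ∀ a ∈ A, ∀ b ∈ A, a * b ∈ A)
    (irr : ∀ W : Submodule K V, (∀ a ∈ A, ∀ w ∈ W, a w ∈ W) → W = ⊥ ∨ W = ⊤)
    {v : V} {f : Module.Dual K V} (hv : v ≠ 0) (hf : f ≠ 0) (hE : f.smulRight v ∈ A)
    (x : Module.End K V) : x ∈ A := by
  -- first all w ⊗ f
  have h1 : ∀ w : V, f.smulRight w ∈ A := by
    let W1 : Submodule K V :=
      { carrier := {w | f.smulRight w ∈ A}
        add_mem' := by
          intro a b ha hb
          show f.smulRight (a + b) ∈ A
          have : f.smulRight (a + b) = f.smulRight a + f.smulRight b := by ext y; simp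
          rw [this]; exact A.add_mem ha hb
        zero_mem' := by
          show f.smulRight (0 : V) ∈ A
          have : f.smulRight (0 : V) = 0 := by ext y; simp
          rw [this]; exact A.zero_mem
        smul_mem' := by
          intro c a ha
          show f.smulRight (c • a) ∈ A
          have : f.smulRight (c • a) = c • f.smulRight a := by
            ext y; simp [smul_smul, mul_comm]
          rw [this]; exact A.smul_mem c ha }
    rcases irr W1 (by
      intro a ha w hw
      show f.smulRight (a w) ∈ A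
      have : f.smulRight (a w) = a * f.smulRight w := by ext y; simp
      rw [this]; exact hA a ha _ hw) with h | h
    · exfalso
      have : v ∈ W1 := hE
      rw [h, Submodule.mem_bot] at this
      exact hv this
    · intro w
      have : w ∈ W1 := by rw [h]; exact Submodule.mem_top
      exact this
  let F : Submodule K (Module.Dual K V) :=
    { carrier := {φ | ∀ w : V, φ.smulRight w ∈ A}
      add_mem' := by
        intro a b ha hb w
        have : (a + b).smulRight w = a.smulRight w + b.smulRight w := by ext y; simp [add_smul]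
        rw [this]; exact A.add_mem (ha w) (hb w)
      zero_mem' := by
        intro w
        have : (0 : Module.Dual K V).smulRight w = 0 := by ext y; simp
        rw [this]; exact A.zero_mem
      smul_mem' := by
        intro c a ha w
        have : (c • a).smulRight w = c • a.smulRight w := by ext y; simp [smul_smul]
        rw [this]; exact A.smul_mem c (ha w) }
  have hF : F = ⊤ := by
    rcases irr F.dualCoannihilator (by
      intro a ha w hw
      rw [Submodule.mem_dualCoannihilator] at hw ⊢
      intro φ hφ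
      refine hw (φ ∘ₗ a) ?_
      intro y
      have : (φ ∘ₗ a).smulRight y = φ.smulRight y * a := by ext z; simp
      rw [this]; exact hA _ (hφ y) a ha) with h | h
    · have h2 := Subspace.dualCoannihilator_dualAnnihilator_eq (W := F)
      rw [← h2, h, Submodule.dualAnnihilator_bot]
    · exfalso
      apply hf
      ext w
      have : w ∈ F.dualCoannihilator := by rw [h]; exact Submodule.mem_top
      rw [Submodule.mem_dualCoannihilator] at this
      exact this f h1
  have h3 : ∀ (φ : Module.Dual K V) (w : V), φ.smulRight w ∈ A := by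
    intro φ w
    have : φ ∈ F := by rw [hF]; exact Submodule.mem_top
    exact this w
  have h4 : x = ∑ i, ((Module.finBasis K V).coord i).smulRight (x (Module.finBasis K V i)) := by
    refine (Module.finBasis K V).ext fun j => ?_
    rw [LinearMap.sum_apply, Finset.sum_eq_single j]
    · simp
    · intro i _ hij
      simp [Finsupp.single_eq_of_ne hij]
    · intro h; exact absurd (Finset.mem_univ j) h
  rw [h4]
  exact A.sum_mem fun i _ => h3 _ _

end Pool.Agent.TD
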