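import Pool.Agent.Lib_helper48.TD.D1

/-! Pseudo-reflections and blocks. -/

set_option autoImplicit false

namespace Pool.Agent.TD

open Module

variable {K : Type*} [Field K] {V : Type*} [AddCommGroup V] [Module K V]

theorem mem_other {ι : Type*} (B : ι → Submodule K V) {i j : ι} (h : j ≠ i) {x : V} (hx : x ∈ B j) :
    x ∈ ⨆ j, ⨆ (_ : j ≠ i), B j := by
  have : B j ≤ ⨆ j, ⨆ (_ : j ≠ i), B j := le_iSup_of_le (f := fun j => ⨆ (_ : j ≠ i), B j) j
    (le_iSup_of_le (f := fun _ : j ≠ i => B j) h le_rfl)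
  exact this hx

/-- A map c + u ⊗ φ (c, c + φ(u), 2 c + φ(u) nonzero) which permutes independent nonzero subspaces
fixes each of them. -/
theorem block_fixed {ι : Type*} {B : ι → Submodule K V} (ind : iSupIndep B) (ne : ∀ i, B i ≠ ⊥)
    {A : Module.End K V} {σ : ι → ι} (hσ : ∀ i, (B i).map A = B (σ i))
    {c : K} {φ : Module.Dual K V} {u : V} (hA : ∀ v, A v = c • v + φ v • u)
    (hc : c ≠ 0) (h1 : c + φ u ≠ 0) (h2 : 2 * c + φ u ≠ 0) (i : ι) : σ i = i := by
  by_contra hi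
  obtain ⟨b', hb', hb'0⟩ := (Submodule.ne_bot_iff _).mp (ne (σ i))
  obtain ⟨b, hb, hbb⟩ : ∃ b ∈ B i, A b = b' := by
    rw [← hσ i] at hb'
    exact hb'
  have hb0 : b ≠ 0 := by rintro rfl; apply hb'0; rw [← hbb, map_zero]
  have disj : ∀ {i j : ι} {x : V}, i ≠ j → x ∈ B i → x ∈ B j → x = 0 := by
    intro i j x hij hx hy
    have h := ind i
    rw [Submodule.disjoint_def] at h
    exact h x hx (mem_other B hij.symm hy)
  have hφb : φ b ≠ 0 := by
    intro h
    have h3 : c • b = b' := by rw [← hbb, hA, h, zero_smul, add_zero]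
    have h4 : b' = 0 := disj hi hb' (by rw [← h3]; exact (B i).smul_mem _ hb)
    exact hb'0 h4
  have hu : φ b • u = b' - c • b := by rw [← hbb, hA]; abel
  have hφb' : φ b' = (c + φ u) * φ b := by
    rw [← hbb, hA, map_add, map_smul, map_smul, smul_eq_mul, smul_eq_mul]; ring
  have hAb' : A b' = (2 * c + φ u) • b' - (c * (c + φ u)) • b := by
    rw [hA, hφb', mul_smul, hu]
    module
  have hm : A b' ∈ B (σ (σ i)) := by
    rw [← hσ (σ i)]
    exact Submodule.mem_map_of_mem hb'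
  by_cases hii : σ (σ i) = i
  · rw [hii] at hm
    have h3 : (2 * c + φ u) • b' = A b' + (c * (c + φ u)) • b := by rw [hAb']; abel
    have h4 : (2 * c + φ u) • b' = 0 := by
      refine disj hi ((B (σ i)).smul_mem _ hb') ?_
      rw [h3]
      exact (B i).add_mem hm ((B i).smul_mem _ hb)
    exact (smul_ne_zero h2 hb'0) h4
  · have h3 : (c * (c + φ u)) • b = (2 * c + φ u) • b' - A b' := by rw [hAb']; abel
    have h5 := ind i
    rw [Submodule.disjoint_def] at h5
    have h4 : (c * (c + φ u)) • b = 0 := by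
      refine h5 _ ((B i).smul_mem _ hb) ?_
      rw [h3]
      refine Submodule.sub_mem _ (Submodule.smul_mem _ _ ?_) ?_
      · exact mem_other B hi hb'
      · exact mem_other B hii hm
    exact (smul_ne_zero (mul_ne_zero hc h1) hb0) h4

variable {Γ : Type*} [Group Γ]

/-- Let the conjugates of a pseudo-reflection (or transvection) s act irreducibly. Then for every
nonzero rank one map its conjugates act irreducibly. -/
theorem refl_top [FiniteDimensional K V] {ρ : Γ →* Module.End K V} {s : Γ}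
    {c : K} {φ : Module.Dual K V} {u : V} (hs : ∀ v, ρ s v = c • v + φ v • u)
    (hc : c ≠ 0) (h2 : 2 * c + φ u ≠ 0)
    (irr : ∀ W : Submodule K V, (∀ g, ∀ w ∈ W, ρ (g * s * g⁻¹) w ∈ W) → W = ⊥ ∨ W = ⊤)
    {v : V} {f : Module.Dual K V} (hv : v ≠ 0) (hf : f ≠ 0) : Qd ρ v f = ⊤ := by
  have irr' : ∀ W : Submodule K V, (∀ g, ∀ w ∈ W, ρ g w ∈ W) → W = ⊥ ∨ W = ⊤ :=
    fun W hW => irr W fun g w hw => hW _ w hw
  have h1 : c + φ u ≠ 0 := by
    intro h
    by_cases hu : u = 0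
    · rw [hu, map_zero, add_zero] at h
      exact hc h
    · apply app_ne ρ s hu
      rw [hs, ← add_smul, h, zero_smul]
  obtain ⟨B, hB⟩ := blocks irr' hv hf
  have hfix : ∀ (g : Γ) (i : Γ ⧸ Qd ρ v f), (g * s * g⁻¹) • i = i := by
    intro g i
    refine block_fixed (A := ρ (g * s * g⁻¹)) (σ := fun i => (g * s * g⁻¹) • i) hB.ind hB.ne
      (fun i => hB.map _ i) (c := c) (φ := φ ∘ₗ ρ g⁻¹) (u := ρ g u) ?_ hc ?_ ?_ i
    · intro x
      rw [← mul_app, ← mul_app, hs, map_add, map_smul, map_smul, app_inv]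
      rfl
    · rw [LinearMap.comp_apply, inv_app]; exact h1
    · rw [LinearMap.comp_apply, inv_app]; exact h2
  have htop : ∀ i, B i = ⊤ := by
    intro i
    refine (irr (B i) ?_).resolve_left (hB.ne i)
    intro g w hw
    have := Submodule.mem_map_of_mem (f := ρ (g * s * g⁻¹)) hw
    rwa [hB.map, hfix] at this
  rw [eq_top_iff]
  intro g _
  have h3 : ((1 : Γ) : Γ ⧸ Qd ρ v f) = (g : Γ ⧸ Qd ρ v f) := by
    by_contra hne
    have h := hB.ind ((1 : Γ) : Γ ⧸ Qd ρ v f)
    rw [Submodule.disjoint_def] at h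
    apply hv
    exact h v (by rw [htop]; exact Submodule.mem_top)
      (mem_other B (Ne.symm hne) (by rw [htop]; exact Submodule.mem_top))
  rw [QuotientGroup.eq, inv_one, one_mul] at h3
  exact h3

theorem refl_irr [FiniteDimensional K V] {ρ : Γ →* Module.End K V} {s : Γ}
    {c : K} {φ : Module.Dual K V} {u : V} (hs : ∀ v, ρ s v = c • v + φ v • u)
    (hc : c ≠ 0) (h2 : 2 * c + φ u ≠ 0)
    (irr : ∀ W : Submodule K V, (∀ g, ∀ w ∈ W, ρ (g * s * g⁻¹) w ∈ W) → W = ⊥ ∨ W = ⊤)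
    {v : V} {f : Module.Dual K V} (hv : v ≠ 0) (hf : f ≠ 0)
    (W : Submodule K V) (hW : ∀ g, ∀ w ∈ W, f (ρ g⁻¹ w) • ρ g v ∈ W) : W = ⊥ ∨ W = ⊤ :=
  irr_of_top (fun W hW => irr W fun g w hw => hW _ w hw) hv hf
    (refl_top hs hc h2 irr hv hf) W hW

end Pool.Agent.TD
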