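import Pool.Agent.Lib_helper48.TD.D2
import Pool.Agent.Lib_helper99.TT.Refl
import Pool.Agent.Lib_helper9.U4.Sl

/-! Lie algebras normalised by a group containing pseudo-reflections: products of sl. -/

set_option autoImplicit false
set_option linter.unusedSectionVars false

namespace Pool.Agent.TD

open Module

section one

variable {K : Type*} [Field K] {V : Type*} [AddCommGroup V] [Module K V]

theorem sr_apply (f : Module.Dual K V) (v w : V) : (f.smulRight v : Module.End K V) w = f w • v := rfl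

/-- Conjugation by a pseudo-reflection: decomposition into three eigenvectors. -/
theorem decomp {A B : Module.End K V} (hAB : A * B = 1) {c d : K} (hc : c ≠ 0)
    (hd : d ≠ 0) (hcd : c ≠ d) {φ : Module.Dual K V} {u : V} (hA : ∀ v, A v = c • v + φ v • u)
    (hφ : φ u = d - c) (z : Module.End K V) : ∃ α β : Module.End K V,
      A * z * B = z + α + β ∧ A * α * B = (d * c⁻¹) • α ∧ A * β * B = (c * d⁻¹) • β ∧
      (∃ (f : Module.Dual K V) (v : V), α = f.smulRight v) ∧
      (∃ (f : Module.Dual K V) (v : V), β = f.smulRight v) := by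
  have hdc : d - c ≠ 0 := sub_ne_zero.mpr hcd.symm
  obtain ⟨P, hP⟩ : ∃ P : Module.End K V, P = ((d - c)⁻¹ • φ).smulRight u := ⟨_, rfl⟩
  obtain ⟨Q, hQ⟩ : ∃ Q : Module.End K V, Q = 1 - P := ⟨_, rfl⟩
  have Pv : ∀ v, P v = ((d - c)⁻¹ * φ v) • u := fun v => by rw [hP, sr_apply]; rfl
  have hPP : P * P = P := by
    ext v
    rw [Module.End.mul_apply, Pv, Pv, map_smul, hφ, smul_eq_mul]
    congr 1
    field_simp
  have hPQ : P * Q = 0 := by rw [hQ, mul_sub, mul_one, hPP, sub_self]
  have hQP : Q * P = 0 := by rw [hQ, sub_mul, one_mul, hPP, sub_self]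
  have hQQ : Q * Q = Q := by
    rw [show Q * Q = (1 - P) * Q by rw [← hQ], sub_mul, one_mul, hPQ, sub_zero]
  have hPQ1 : P + Q = 1 := by rw [hQ]; abel
  have hAf : A = c • Q + d • P := by
    ext v
    rw [LinearMap.add_apply, LinearMap.smul_apply, LinearMap.smul_apply, hQ, LinearMap.sub_apply,
      Module.End.one_apply, Pv, hA, smul_sub, smul_smul, smul_smul]
    have e : φ v = d * ((d - c)⁻¹ * φ v) - c * ((d - c)⁻¹ * φ v) := by
      field_simp
    nth_rewrite 1 [e]
    module
  have hBf : B = c⁻¹ • Q + d⁻¹ • P := by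
    have h1 : (c⁻¹ • Q + d⁻¹ • P) * A = 1 := by
      rw [hAf]
      simp only [add_mul, mul_add, smul_mul_assoc, mul_smul_comm, hQQ, hQP, hPQ, hPP, smul_zero,
        add_zero, zero_add, smul_smul]
      rw [mul_inv_cancel₀ hc, mul_inv_cancel₀ hd, one_smul, one_smul, add_comm, hPQ1]
    calc B = ((c⁻¹ • Q + d⁻¹ • P) * A) * B := by rw [h1, one_mul]
      _ = c⁻¹ • Q + d⁻¹ • P := by rw [mul_assoc, hAB, mul_one]
  have hAP : A * P = d • P := by
    rw [hAf, add_mul, smul_mul_assoc, smul_mul_assoc, hQP, hPP, smul_zero, zero_add]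
  have hAQ : A * Q = c • Q := by
    rw [hAf, add_mul, smul_mul_assoc, smul_mul_assoc, hQQ, hPQ, smul_zero, add_zero]
  have hPB : P * B = d⁻¹ • P := by
    rw [hBf, mul_add, mul_smul_comm, mul_smul_comm, hPQ, hPP, smul_zero, zero_add]
  have hQB : Q * B = c⁻¹ • Q := by
    rw [hBf, mul_add, mul_smul_comm, mul_smul_comm, hQQ, hQP, smul_zero, add_zero]
  have c1 : A * (P * z * Q) * B = (d * c⁻¹) • (P * z * Q) := by
    calc A * (P * z * Q) * B = (A * P) * z * (Q * B) := by noncomm_ring
      _ = (d * c⁻¹) • (P * z * Q) := by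
        rw [hAP, hQB, smul_mul_assoc, smul_mul_assoc, mul_smul_comm, smul_smul]
  have c2 : A * (Q * z * P) * B = (c * d⁻¹) • (Q * z * P) := by
    calc A * (Q * z * P) * B = (A * Q) * z * (P * B) := by noncomm_ring
      _ = (c * d⁻¹) • (Q * z * P) := by
        rw [hAQ, hPB, smul_mul_assoc, smul_mul_assoc, mul_smul_comm, smul_smul]
  refine ⟨(d * c⁻¹ - 1) • (P * z * Q), (c * d⁻¹ - 1) • (Q * z * P), ?_, ?_, ?_, ?_, ?_⟩
  · have e : z = P * z * P + P * z * Q + Q * z * P + Q * z * Q := by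
      have : z = (P + Q) * z * (P + Q) := by rw [hPQ1, one_mul, mul_one]
      nth_rewrite 1 [this]
      noncomm_ring
    have e2 : A * z * B = P * z * P + (d * c⁻¹) • (P * z * Q) + (c * d⁻¹) • (Q * z * P)
        + Q * z * Q := by
      rw [hAf, hBf]
      simp only [add_mul, mul_add, smul_mul_assoc, mul_smul_comm]
      match_scalars <;> field_simp
    rw [e2]
    nth_rewrite 5 [e]
    module
  · rw [mul_smul_comm, smul_mul_assoc, c1, smul_comm]
  · rw [mul_smul_comm, smul_mul_assoc, c2, smul_comm]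
  · refine ⟨(d * c⁻¹ - 1) • ((d - c)⁻¹ • φ) ∘ₗ (z * Q), u, ?_⟩
    ext v
    rw [LinearMap.smul_apply, Module.End.mul_apply, Module.End.mul_apply, Pv, sr_apply,
      LinearMap.smul_apply, LinearMap.comp_apply, LinearMap.smul_apply, Module.End.mul_apply,
      smul_smul]
    rfl
  · refine ⟨((c * d⁻¹ - 1) * (d - c)⁻¹) • φ, Q (z u), ?_⟩
    ext v
    rw [LinearMap.smul_apply, Module.End.mul_apply, Module.End.mul_apply, Pv, sr_apply, map_smul,
      map_smul, LinearMap.smul_apply, smul_smul, smul_eq_mul, mul_assoc]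

end one

section two

attribute [local instance 100] LieRing.ofAssociativeRing

variable {K : Type*} [Field K] [CharZero K] [IsAlgClosed K]
variable {V : Type*} [AddCommGroup V] [Module K V] [FiniteDimensional K V]
variable {Γ : Type*} [Group Γ]

/-- One module: a space of endomorphisms closed under brackets and under conjugation which contains
a rank one eigenvector for a pseudo-reflection contains sl. -/
theorem sl_one (ρ : Γ →* Module.End K V) (s : Γ) {c d : K} (hc : c ≠ 0) (hcd : c ^ 2 ≠ d ^ 2)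
    {φ : Module.Dual K V} {u : V} (hs : ∀ v, ρ s v = c • v + φ v • u) (hφ : φ u = d - c)
    (irr : ∀ W : Submodule K V, (∀ g, ∀ w ∈ W, ρ (g * s * g⁻¹) w ∈ W) → W = ⊥ ∨ W = ⊤)
    (I : Submodule K (Module.End K V)) (hbr : ∀ x ∈ I, ∀ y ∈ I, x * y - y * x ∈ I)
    (hconj : ∀ g, ∀ x ∈ I, ρ g * x * ρ g⁻¹ ∈ I)
    {α : Module.End K V} (hα : α ∈ I) (hα0 : α ≠ 0) (hr : ∃ (f : Module.Dual K V) (v : V), α = f.smulRight v)
    (hns : ¬ ∃ t : K, α = t • 1) :
    ∀ z, LinearMap.trace K V z = 0 → z ∈ I := by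
  obtain ⟨f, v, hfv⟩ := hr
  have hv : v ≠ 0 := by
    rintro rfl
    apply hα0
    rw [hfv]; ext w; rw [sr_apply, smul_zero, LinearMap.zero_apply]
  have hf : f ≠ 0 := by
    rintro rfl
    apply hα0
    rw [hfv]; ext w; rw [sr_apply, LinearMap.zero_apply, zero_smul, LinearMap.zero_apply]
  have hcd' : c ≠ d := fun h => hcd (by rw [h])
  have hdc : d - c ≠ 0 := sub_ne_zero.mpr hcd'.symm
  have hu : u ≠ 0 := by rintro rfl; rw [map_zero] at hφ; exact hdc hφ.symm
  have h2 : 2 * c + φ u ≠ 0 := by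
    rw [hφ]
    intro h
    apply hcd
    have : d = -c := by linear_combination h
    rw [this]; ring
  have irrI : ∀ W : Submodule K V, (∀ x ∈ I, ∀ w ∈ W, x w ∈ W) → W = ⊥ ∨ W = ⊤ := by
    intro W hW
    refine refl_irr hs hc h2 irr hv hf W ?_
    intro g w hw
    have := hW _ (hconj g α hα) w hw
    rwa [Module.End.mul_apply, Module.End.mul_apply, hfv, sr_apply, map_smul] at this
  -- the Lie algebra
  let G : LieSubalgebra K (Module.End K V) :=
    { I with
      lie_mem' := by
        intro x y hx hy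
        exact hbr x hx y hy }
  have hnt : Nontrivial V := ⟨⟨v, 0, hv⟩⟩
  have memG : ∀ x, x ∈ G ↔ x ∈ I := fun x => Iff.rfl
  have lieG : ∀ (x : G) (v : V), ⁅x, v⁆ = (x : Module.End K V) v := fun x v => rfl
  have : LieModule.IsIrreducible K G V := by
    refine LieModule.IsIrreducible.mk (fun N hN => ?_)
    have h1 : (N : Submodule K V) ≠ ⊥ := by
      intro h
      apply hN
      rw [← LieSubmodule.toSubmodule_inj, h, LieSubmodule.bot_toSubmodule]
    have h3 := (irrI (N : Submodule K V) (by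
      intro x hx w hw
      exact N.lie_mem (x := (⟨x, hx⟩ : G)) hw)).resolve_left h1
    rw [← LieSubmodule.toSubmodule_inj, h3, LieSubmodule.top_toSubmodule]
  let S : V ≃ₗ[K] V := LinearEquiv.ofLinearMap (ρ s) (ρ s⁻¹)
    (by ext w; exact app_inv ρ s w) (by ext w; exact inv_app ρ s w)
  have hSv : ∀ w, S w = ρ s w := fun w => rfl
  have on := Pool.Agent.TT.onSl_reflection (g := G) V S (by
    intro x
    refine ⟨⟨ρ s * (x : Module.End K V) * ρ s⁻¹, hconj s x x.2⟩, ?_⟩
    intro w
    rw [lieG, lieG, hSv, hSv]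
    show _ = ρ s (x.1 (ρ s⁻¹ (ρ s w)))
    rw [inv_app]) c d (by
    have e : ((S : Module.End K V) - c • (1 : Module.End K V)) = φ.smulRight u := by
      ext w
      rw [LinearMap.sub_apply, LinearMap.smul_apply, Module.End.one_apply, sr_apply]
      show ρ s w - c • w = _
      rw [hs]; abel
    rw [e]
    have e2 : LinearMap.range (φ.smulRight u : Module.End K V) = Submodule.span K {u} := by
      apply le_antisymm
      · rintro x ⟨w, rfl⟩
        exact Submodule.mem_span_singleton.mpr ⟨φ w, rfl⟩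
      · rw [Submodule.span_singleton_le_iff_mem]
        refine ⟨(d - c)⁻¹ • u, ?_⟩
        rw [sr_apply, map_smul, hφ, smul_eq_mul, inv_mul_cancel₀ hdc, one_smul]
    rw [e2]
    exact finrank_span_singleton hu) ⟨u, hu, by
      rw [hSv, hs, hφ]; module⟩ hcd
  refine Pool.Agent.U4.sl_simple I ?_ hα hns
  intro y x hx
  -- y = y0 + t
  have hN : (finrank K V : K) ≠ 0 := by
    rw [Nat.cast_ne_zero]
    exact Module.finrank_pos.ne'
  obtain ⟨y0, hy0⟩ : ∃ y0 : Module.End K V, y0 = y - (LinearMap.trace K V y * (finrank K V : K)⁻¹) • 1 :=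
    ⟨_, rfl⟩
  have ht : LinearMap.trace K V y0 = 0 := by
    rw [hy0, map_sub, map_smul, LinearMap.trace_one, smul_eq_mul, mul_assoc, inv_mul_cancel₀ hN,
      mul_one, sub_self]
  obtain ⟨y', a, hy'⟩ := on y0 ht
  have e1 : (y' : Module.End K V) = y0 + a • 1 := by
    ext w
    rw [← lieG, hy']; rfl
  have e2 : y * x - x * y = (y' : Module.End K V) * x - x * y' := by
    rw [e1, hy0]
    simp only [add_mul, mul_add, sub_mul, mul_sub, smul_mul_assoc, mul_smul_comm, one_mul, mul_one]
    abel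
  rw [e2]
  exact hbr _ y'.2 _ hx

end two

end Pool.Agent.TD
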