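import Pool.Agent.Lib_helper48.TD.D3

/-! Several modules: the product of the sl. -/

set_option autoImplicit false
set_option linter.unusedSectionVars false

namespace Pool.Agent.TD

open Module

variable {K : Type*} [Field K] [CharZero K] [IsAlgClosed K]
variable {ι : Type*} [Fintype ι] [DecidableEq ι] {V : ι → Type*} [∀ a, AddCommGroup (V a)]
  [∀ a, Module K (V a)] [∀ a, FiniteDimensional K (V a)]
variable {Γ : Type*} [Group Γ]

/-- Big monodromy from one pseudo-reflection. -/
theorem slAll (ρ : ∀ a, Γ →* Module.End K (V a)) (s : Γ) {c d : ι → K} (hc : ∀ a, c a ≠ 0)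
    (hcd : ∀ a, c a ^ 2 ≠ d a ^ 2)
    (h1 : ∀ a b, a ≠ b → d a * c b ≠ d b * c a) (h2 : ∀ a b, a ≠ b → d a * d b ≠ c a * c b)
    {φ : ∀ a, Module.Dual K (V a)} {u : ∀ a, V a} (hs : ∀ a v, ρ a s v = c a • v + φ a v • u a)
    (hφ : ∀ a, φ a (u a) = d a - c a)
    (irr : ∀ a (W : Submodule K (V a)), (∀ g, ∀ w ∈ W, ρ a (g * s * g⁻¹) w ∈ W) → W = ⊥ ∨ W = ⊤)
    (L : Submodule K (∀ a, Module.End K (V a))) (hbr : ∀ x ∈ L, ∀ y ∈ L, x * y - y * x ∈ L)
    (hconj : ∀ g, ∀ x ∈ L, (fun a => ρ a g * x a * ρ a g⁻¹) ∈ L)
    (hns : ∀ a, ∃ x ∈ L, ¬ ∃ t : K, x a = t • 1) (z : ∀ a, Module.End K (V a))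
    (hz : ∀ a, LinearMap.trace K (V a) (z a) = 0) : z ∈ L := by
  have hcd' : ∀ a, c a ≠ d a := fun a h => hcd a (by rw [h])
  have hdc : ∀ a, d a - c a ≠ 0 := fun a => sub_ne_zero.mpr (hcd' a).symm
  have hd : ∀ a, d a ≠ 0 := by
    intro a h
    have hu : u a ≠ 0 := by
      intro h0
      have := hφ a
      rw [h0, map_zero] at this
      exact hdc a this.symm
    apply app_ne (ρ a) s hu
    rw [hs, hφ, h, zero_sub, neg_smul, add_neg_cancel]
  have hAB : ∀ a, ρ a s * ρ a s⁻¹ = 1 := fun a => by rw [← map_mul, mul_inv_cancel, map_one]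
  obtain ⟨T, hT⟩ : ∃ T : ∀ a, Module.End K (V a) → Module.End K (V a),
      T = fun a x => ρ a s * x * ρ a s⁻¹ := ⟨_, rfl⟩
  have Tadd : ∀ a x y, T a (x + y) = T a x + T a y := by
    intro a x y; rw [hT]; show _ * _ * _ = _; rw [mul_add, add_mul]
  have Tsub : ∀ a x y, T a (x - y) = T a x - T a y := by
    intro a x y; rw [hT]; show _ * _ * _ = _; rw [mul_sub, sub_mul]
  have Tsmul : ∀ a (t : K) x, T a (t • x) = t • T a x := by
    intro a t x; rw [hT]; show _ * _ * _ = _; rw [mul_smul_comm, smul_mul_assoc]
  have Tzero : ∀ a, T a 0 = 0 := by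
    intro a; rw [hT]; show _ * _ * _ = _; rw [mul_zero, zero_mul]
  have TL : ∀ x ∈ L, ∀ t : K, (fun a => T a (x a) - t • x a) ∈ L := by
    intro x hx t
    rw [hT]
    exact L.sub_mem (hconj s x hx) (L.smul_mem t hx)
  have dec : ∀ a (x : Module.End K (V a)), ∃ α β : Module.End K (V a), T a x = x + α + β ∧
      T a α = (d a * (c a)⁻¹) • α ∧ T a β = (c a * (d a)⁻¹) • β ∧
      (∃ (f : Module.Dual K (V a)) (v : V a), α = f.smulRight v) ∧
      (∃ (f : Module.Dual K (V a)) (v : V a), β = f.smulRight v) := by
    intro a x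
    rw [hT]
    exact decomp (hAB a) (hc a) (hd a) (hcd' a) (hs a) (hφ a) x
  -- the single components
  have main : ∀ a, ∀ z : Module.End K (V a), LinearMap.trace K (V a) z = 0 → Pi.single a z ∈ L := by
    intro a
    -- an eigenvector with rank one at a
    obtain ⟨x, hx, α, μ, hxα, hTα, hμ, hα0, hr⟩ : ∃ x ∈ L, ∃ (α : Module.End K (V a)) (μ : K),
        x a = α ∧ T a α = μ • α ∧ (μ = d a * (c a)⁻¹ ∨ μ = c a * (d a)⁻¹) ∧ α ≠ 0 ∧
        (∃ (f : Module.Dual K (V a)) (v : V a), α = f.smulRight v) := by
      obtain ⟨x, hx, hxT⟩ : ∃ x ∈ L, T a (x a) ≠ x a := by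
        by_contra hne
        push Not at hne
        obtain ⟨x, hx, hxn⟩ := hns a
        apply hxn
        -- x commutes with all conjugates of s
        have hcomm : ∀ g v, x a (ρ a (g * s * g⁻¹) v) = ρ a (g * s * g⁻¹) (x a v) := by
          intro g v
          have h := hne _ (hconj g⁻¹ x hx)
          rw [hT] at h
          simp only [inv_inv] at h
          have h' := LinearMap.congr_fun h (ρ a s (ρ a g⁻¹ v))
          simp only [Module.End.mul_apply] at h'
          rw [inv_app, app_inv] at h'
          have h3 := congrArg (ρ a g) h'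
          rw [app_inv] at h3
          rw [← mul_app, ← mul_app, ← mul_app, ← mul_app, h3]
        have hV : Nontrivial (V a) := ⟨⟨u a, 0, by
          intro h0
          have := hφ a
          rw [h0, map_zero] at this
          exact hdc a this.symm⟩⟩
        obtain ⟨t, ht⟩ := Module.End.exists_eigenvalue (x a)
        refine ⟨t, ?_⟩
        rcases irr a (Module.End.eigenspace (x a) t) (by
          intro g w hw
          rw [Module.End.mem_eigenspace_iff] at hw ⊢
          rw [hcomm, hw, map_smul]) with h | h
        · exact absurd h ht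
        · ext w
          have : w ∈ Module.End.eigenspace (x a) t := by rw [h]; exact Submodule.mem_top
          exact Module.End.mem_eigenspace_iff.mp this
      obtain ⟨α, β, e, hα, hβ, rα, rβ⟩ := dec a (x a)
      have hy := TL x hx 1
      by_cases hα0 : α = 0
      · refine ⟨_, hy, β, _, ?_, hβ, Or.inr rfl, ?_, rβ⟩
        · show T a (x a) - (1 : K) • x a = β
          rw [e, hα0, one_smul]; abel
        · intro hβ0
          apply hxT
          rw [e, hα0, hβ0, add_zero, add_zero]
      · -- apply T - d / c inverse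
        have hy2 := TL _ hy (c a * (d a)⁻¹)
        have hmm : d a * (c a)⁻¹ - c a * (d a)⁻¹ ≠ 0 := by
          intro h
          apply hcd a
          have h1 := hc a
          have h2 := hd a
          field_simp at h
          linear_combination -h
        refine ⟨_, L.smul_mem (d a * (c a)⁻¹ - c a * (d a)⁻¹)⁻¹ hy2, α, _, ?_, hα, Or.inl rfl, hα0, rα⟩
        show (d a * (c a)⁻¹ - c a * (d a)⁻¹)⁻¹ • (T a (T a (x a) - (1 : K) • x a)
          - (c a * (d a)⁻¹) • (T a (x a) - (1 : K) • x a)) = α
        have e1 : T a (x a) - (1 : K) • x a = α + β := by rw [e, one_smul]; abel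
        rw [e1, Tadd, hα, hβ]
        have e2 : (d a * (c a)⁻¹) • α + (c a * (d a)⁻¹) • β - (c a * (d a)⁻¹) • (α + β)
            = (d a * (c a)⁻¹ - c a * (d a)⁻¹) • α := by module
        rw [e2, smul_smul, inv_mul_cancel₀ hmm, one_smul]
    have hμ1 : μ - 1 ≠ 0 := by
      have h1 := hc a
      have h2 := hd a
      intro h
      apply hcd' a
      rcases hμ with rfl | rfl
      · field_simp at h; linear_combination -h
      · field_simp at h; linear_combination h
    -- kill the other components
    have kill : ∀ S : Finset ι, a ∉ S → ∃ y ∈ L, y a = α ∧ ∀ b ∈ S, y b = 0 := by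
      intro S
      induction S using Finset.induction_on with
      | empty => intro _; exact ⟨x, hx, hxα, by simp⟩
      | insert b S hb ih =>
        intro ha
        have hab : a ≠ b := fun h => ha (by rw [h]; exact Finset.mem_insert_self _ _)
        obtain ⟨y, hy, hya, hyS⟩ := ih fun h => ha (Finset.mem_insert_of_mem h)
        have k1 : μ - d b * (c b)⁻¹ ≠ 0 := by
          have p1 := hc a
          have p2 := hd a
          have p3 := hc b
          have p4 := hd b
          intro h
          rcases hμ with rfl | rfl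
          · apply h1 a b hab
            field_simp at h; linear_combination h
          · apply h2 a b hab
            field_simp at h; linear_combination -h
        have k2 : μ - c b * (d b)⁻¹ ≠ 0 := by
          have p1 := hc a
          have p2 := hd a
          have p3 := hc b
          have p4 := hd b
          intro h
          rcases hμ with rfl | rfl
          · apply h2 a b hab
            field_simp at h; linear_combination h
          · apply h1 a b hab
            field_simp at h; linear_combination -h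
        have m1 := TL y hy 1
        have m2 := TL _ m1 (d b * (c b)⁻¹)
        have m3 := TL _ m2 (c b * (d b)⁻¹)
        refine ⟨_, L.smul_mem ((μ - 1) * (μ - d b * (c b)⁻¹) * (μ - c b * (d b)⁻¹))⁻¹ m3, ?_, ?_⟩
        · show ((μ - 1) * (μ - d b * (c b)⁻¹) * (μ - c b * (d b)⁻¹))⁻¹ • (
            T a (T a (T a (y a) - (1 : K) • y a) - (d b * (c b)⁻¹) • (T a (y a) - (1 : K) • y a))
            - (c b * (d b)⁻¹) • (T a (T a (y a) - (1 : K) • y a)
              - (d b * (c b)⁻¹) • (T a (y a) - (1 : K) • y a))) = α
          rw [hya]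
          simp only [Tsub, Tsmul, hTα, one_smul]
          have e : μ • μ • μ • α - μ • μ • α - (d b * (c b)⁻¹) • (μ • μ • α - μ • α)
              - (c b * (d b)⁻¹) • (μ • μ • α - μ • α - (d b * (c b)⁻¹) • (μ • α - α))
              = ((μ - 1) * (μ - d b * (c b)⁻¹) * (μ - c b * (d b)⁻¹)) • α := by module
          rw [e, smul_smul, inv_mul_cancel₀ (mul_ne_zero (mul_ne_zero hμ1 k1) k2), one_smul]
        · intro b' hb'
          show ((μ - 1) * (μ - d b * (c b)⁻¹) * (μ - c b * (d b)⁻¹))⁻¹ • (
            T b' (T b' (T b' (y b') - (1 : K) • y b')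
              - (d b * (c b)⁻¹) • (T b' (y b') - (1 : K) • y b'))
            - (c b * (d b)⁻¹) • (T b' (T b' (y b') - (1 : K) • y b')
              - (d b * (c b)⁻¹) • (T b' (y b') - (1 : K) • y b'))) = 0
          rcases Finset.mem_insert.mp hb' with rfl | hb'
          · obtain ⟨α', β', e, hα', hβ', -, -⟩ := dec b' (y b')
            have e1 : T b' (y b') - (1 : K) • y b' = α' + β' := by rw [e, one_smul]; abel
            rw [e1]
            simp only [Tsub, Tadd, Tsmul, hα', hβ']
            module
          · rw [hyS b' hb']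
            simp only [Tzero, smul_zero, sub_zero]
    obtain ⟨y, hy, hya, hyb⟩ := kill (Finset.univ.erase a) (Finset.notMem_erase a _)
    have hys : y = Pi.single a α := by
      funext b
      by_cases hb : b = a
      · subst hb; rw [hya, Pi.single_eq_same]
      · rw [Pi.single_eq_of_ne hb]
        exact hyb b (Finset.mem_erase.mpr ⟨hb, Finset.mem_univ b⟩)
    rw [hys] at hy
    -- the space of single components
    let I : Submodule K (Module.End K (V a)) := L.comap (LinearMap.single K (fun a => Module.End K (V a)) a)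
    have memI : ∀ w, w ∈ I ↔ Pi.single a w ∈ L := fun w => Iff.rfl
    have hμ1' : ¬ ∃ t : K, α = t • 1 := by
      rintro ⟨t, rfl⟩
      apply hα0
      have e : T a (t • 1) = t • 1 := by
        rw [Tsmul, hT]
        show t • (ρ a s * 1 * ρ a s⁻¹) = _
        rw [mul_one, hAB]
      rw [e] at hTα
      have : (μ - 1) • (t • (1 : Module.End K (V a))) = 0 := by rw [sub_smul, one_smul, ← hTα, sub_self]
      exact (smul_eq_zero.mp this).resolve_left hμ1
    intro z hz
    rw [← memI]
    refine sl_one (ρ a) s (hc a) (hcd a) (hs a) (hφ a) (irr a) I ?_ ?_ hy hα0 hr hμ1' z hz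
    · intro x hx y hy
      rw [memI] at hx hy ⊢
      have := hbr _ hx _ hy
      rwa [← Pi.single_mul, ← Pi.single_mul, ← Pi.single_sub] at this
    · intro g x hx
      rw [memI] at hx ⊢
      have h := hconj g _ hx
      have e : (fun b => ρ b g * (Pi.single a x : ∀ a, Module.End K (V a)) b * ρ b g⁻¹)
          = Pi.single a (ρ a g * x * ρ a g⁻¹) := by
        funext b
        by_cases hb : b = a
        · subst hb; rw [Pi.single_eq_same, Pi.single_eq_same]
        · rw [Pi.single_eq_of_ne hb, Pi.single_eq_of_ne hb, mul_zero, zero_mul]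
      rwa [e] at h
  rw [← Finset.univ_sum_single z]
  exact L.sum_mem fun a _ => main a _ (hz a)

end Pool.Agent.TD
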