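import Pool.Agent.Lib_helper11.TD.Core
import Pool.Agent.Lib_helper50.TD.TD16

/-!
# Block TD15: infinite image in the non orthogonal case
-/

set_option autoImplicit false

namespace Pool.Agent.TD

open Equiv

variable {V : Type*} [AddCommGroup V] [Module ℚ_[2] V]

theorem td15_fresh {k : ℕ} (hk : 5 ≤ k) (s : Finset (Fin k)) (hs : s.card ≤ 4) : ∃ m, m ∉ s := by
  by_contra hcon
  push Not at hcon
  have h3 := Finset.card_le_card (fun m _ => hcon m : (Finset.univ : Finset (Fin k)) ⊆ s)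
  rw [Finset.card_univ, Fintype.card_fin] at h3
  omega

theorem td_inf [FiniteDimensional ℚ_[2] V] {G : Type*} [Group G] (ρ : G →* Module.End ℚ_[2] V)
    (b : LinearMap.BilinForm ℚ_[2] V) (hs : ∀ x y, b x y = b y x)
    (hb : ∀ g x y, b (ρ g x) (ρ g y) = b x y) {k : ℕ} (hk : 5 ≤ k) (π₁ π₂ : G →* Perm (Fin k))
    {N M : ℚ_[2]} {Δ E : Set V} (S : Side ρ b k π₁ π₂ N Δ) (T : Side ρ b k π₂ π₁ M E)
    (hc : ∀ x ∈ Δ, ∀ y ∈ E, ‖4 * b x y ^ 2 / (N * M)‖ < 1)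
    {x₀ y₀ : V} (hx₀ : x₀ ∈ Δ) (hy₀ : y₀ ∈ E) (hxy : b x₀ y₀ ≠ 0) :
    ∃ x ∈ Δ ∪ E, ∃ y ∈ Δ ∪ E, ∀ m, 0 < m → (refl b x * refl b y) ^ m ≠ 1 := by
  by_contra hcon
  push Not at hcon
  have N0 := S.sys.ne
  have M0 := T.sys.ne
  obtain ⟨Ov, hOv⟩ : ∃ Ov : Fin k → Fin k → V → Prop, ∀ a c x, Ov a c x ↔
      ∃ g, ρ g = refl b x ∧ π₁ g = swap a c ∧ π₂ g = 1 := ⟨_, fun a c x => Iff.rfl⟩
  have ovsymm : ∀ a c x, Ov a c x → Ov c a x := by
    intro a c x h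
    rw [hOv] at h ⊢
    exact S.sys.symm a c x h
  -- the values of the form
  have adjD : ∀ a c d x y, x ∈ Δ → y ∈ Δ → a ≠ c → a ≠ d → c ≠ d → Ov a c x → Ov a d y →
      (2 * b x y / N) ^ 2 = 1 := by
    intro a c d x y hx hy h1 h2 h3 h4 h5
    obtain ⟨m, hm, h⟩ := hcon x (Or.inl hx) y (Or.inl hy)
    have hli := S.sys.indep hk hx hy h1.symm h2 h1.symm h3 ((hOv _ _ _).mp (ovsymm _ _ _ h4))
      ((hOv _ _ _).mp h5)
    exact (td_fo b hs x y N N0 (S.sys.norm x hx) (S.sys.norm y hy) hli m hm h).1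
      (S.sys.adj a c d x y hx hy h1 h2 h3 ((hOv _ _ _).mp h4) ((hOv _ _ _).mp h5))
  have disD : ∀ a c d e x y, x ∈ Δ → y ∈ Δ → a ≠ c → d ≠ e → a ≠ d → a ≠ e → c ≠ d → c ≠ e →
      Ov a c x → Ov d e y → b x y = 0 := by
    intro a c d e x y hx hy h1 h2 h3 h4 h5 h6 h7 h8
    obtain ⟨m, hm, h⟩ := hcon x (Or.inl hx) y (Or.inl hy)
    have hli := S.sys.indep hk hx hy h1 h2 h3 h4 ((hOv _ _ _).mp h7) ((hOv _ _ _).mp h8)
    exact (td_fo b hs x y N N0 (S.sys.norm x hx) (S.sys.norm y hy) hli m hm h).2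
      (S.sys.dis a c d e x y hx hy h1 h2 h3 h4 h5 h6 ((hOv _ _ _).mp h7) ((hOv _ _ _).mp h8))
  have cross : ∀ x ∈ Δ, ∀ y ∈ E, b x y = 0 ∨ 2 * b x y ^ 2 = N * M := by
    intro x hx y hy
    have hli : LinearIndependent ℚ_[2] ![x, y] := by
      have hx0 : x ≠ 0 := by
        intro h
        have := S.sys.norm x hx
        rw [h, map_zero] at this
        exact N0 this.symm
      rw [LinearIndependent.pair_iff' hx0]
      intro t ht
      obtain ⟨a, c, hac, hxo⟩ := S.sys.ov x hx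
      obtain ⟨m, hm⟩ := td15_fresh hk {a, c} ((Finset.card_le_two).trans (by norm_num))
      rw [Finset.mem_insert, Finset.mem_singleton, not_or] at hm
      obtain ⟨z, hz, hzo⟩ := S.sys.ex a m (Ne.symm hm.1)
      have h1 := S.sys.adj a c m x z hx hz hac (Ne.symm hm.1) (Ne.symm hm.2) hxo hzo
      have hM : M = t ^ 2 * N := by
        have h4 := T.sys.norm y hy
        rw [← ht, map_smul, map_smul, LinearMap.smul_apply, S.sys.norm x hx, smul_eq_mul,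
          smul_eq_mul] at h4
        rw [← h4]; ring
      have ht0 : t ≠ 0 := by
        rintro rfl
        apply M0
        rw [hM]; ring
      have h2 := hc z hz y hy
      have h3 : 4 * b z y ^ 2 / (N * M) = (2 * b x z / N) ^ 2 := by
        rw [← ht, map_smul, smul_eq_mul, hM, hs z x]
        field_simp
        ring
      rw [h3, norm_pow] at h2
      exact not_small h1 ((pow_lt_one_iff_of_nonneg (norm_nonneg _) two_ne_zero).mp h2)
    obtain ⟨m, hm, h⟩ := hcon x (Or.inl hx) y (Or.inr hy)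
    rcases td_fo2 b hs x y N M N0 M0 (S.sys.norm x hx) (T.sys.norm y hy) hli m hm h
      (hc x hx y hy) with h | h
    · exact Or.inl h
    · right
      field_simp at h
      linear_combination (1/2) * h
  -- transport
  have ovconj : ∀ h : G, ∀ a c x, Ov a c x → Ov (π₁ h a) (π₁ h c) (ρ h x) := by
    intro h a c x hx
    rw [hOv] at hx ⊢
    obtain ⟨g, h1, h2, h3⟩ := hx
    refine ⟨h * g * h⁻¹, ?_, ?_, ?_⟩
    · rw [map_mul, map_mul, h1, refl_conj ρ b hb]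
    · rw [map_mul, map_mul, h2, map_inv, swap_apply_apply]
    · rw [map_mul, map_mul, h3, mul_one, ← map_mul, mul_inv_cancel, map_one]
  -- the second root over the first transposition
  obtain ⟨m, hm⟩ : ∃ m, m = b x₀ y₀ := ⟨_, rfl⟩
  have m0 : m ≠ 0 := by rw [hm]; exact hxy
  have hmNM : 2 * m ^ 2 = N * M := by
    rw [hm]; exact (cross x₀ hx₀ y₀ hy₀).resolve_left hxy
  obtain ⟨p1, p2, hp12, hxo⟩ := S.sys.ov x₀ hx₀
  rw [← hOv] at hxo
  obtain ⟨q1, q2, hq12, gy, hgy, hgy2, hgy1⟩ := T.sys.ov y₀ hy₀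
  obtain ⟨x₁, hx₁⟩ : ∃ x₁, x₁ = ρ gy x₀ := ⟨_, rfl⟩
  have hx₁Δ : x₁ ∈ Δ := by rw [hx₁]; exact S.stab gy x₀ hx₀
  have hx₁o : Ov p1 p2 x₁ := by
    have := ovconj gy p1 p2 x₀ hxo
    rwa [hgy1, ← hx₁] at this
  have ex₁ : x₁ = x₀ - (2 / M * m) • y₀ := by
    rw [hx₁, hgy, refl_apply, T.sys.norm y₀ hy₀, hs y₀ x₀, hm]
  have h01 : b x₀ x₁ = 0 := by
    rw [ex₁, map_sub, map_smul, S.sys.norm x₀ hx₀, ← hm, smul_eq_mul]
    field_simp
    linear_combination -hmNM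
  -- the vector z
  obtain ⟨q3, hq3⟩ := td15_fresh hk {q1, q2} ((Finset.card_le_two).trans (by norm_num))
  rw [Finset.mem_insert, Finset.mem_singleton, not_or] at hq3
  obtain ⟨z, hz, gz, hgz, hgz2, hgz1⟩ := T.sys.ex q1 q3 (Ne.symm hq3.1)
  have hyz : (2 * b y₀ z / M) ^ 2 = 1 := by
    obtain ⟨r, hr, h⟩ := hcon y₀ (Or.inr hy₀) z (Or.inr hz)
    have hli := T.sys.indep hk hy₀ hz hq12.symm (Ne.symm hq3.1) hq12.symm (Ne.symm hq3.2)
      ⟨gy, hgy, by rw [hgy2, swap_comm], hgy1⟩ ⟨gz, hgz, hgz2, hgz1⟩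
    exact (td_fo b hs y₀ z M M0 (T.sys.norm y₀ hy₀) (T.sys.norm z hz) hli r hr h).1
      (T.sys.adj q1 q2 q3 y₀ z hy₀ hz hq12 (Ne.symm hq3.1) (Ne.symm hq3.2)
        ⟨gy, hgy, hgy2, hgy1⟩ ⟨gz, hgz, hgz2, hgz1⟩)
  have fval : ∀ x ∈ Δ, b x z = 0 ∨ b x z = m ∨ b x z = -m := by
    intro x hx
    rcases cross x hx z hz with h | h
    · exact Or.inl h
    · right
      apply sq_eq_sq_iff_eq_or_eq_neg.mp
      have : (2 : ℚ_[2]) * (b x z ^ 2 - m ^ 2) = 0 := by linear_combination h - hmNM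
      have h2 := (mul_eq_zero.mp this).resolve_left two_ne_zero
      linear_combination h2
  -- two values which differ by m up to sign
  have hdich : ∀ s t r : ℚ_[2], (s = 0 ∨ s = m ∨ s = -m) → (t = 0 ∨ t = m ∨ t = -m) → r ^ 2 = 1 →
      t = s - r * m → (s = 0 ∧ t ^ 2 = m ^ 2) ∨ (s ^ 2 = m ^ 2 ∧ t = 0) := by
    intro s t r hs ht hr hst
    have hr' : r = 1 ∨ r = -1 := by
      have h : (r - 1) * (r + 1) = 0 := by linear_combination hr
      rcases mul_eq_zero.mp h with h | h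
      · left; linear_combination h
      · right; linear_combination h
    rcases hs with h1 | h1 | h1
    · left
      refine ⟨h1, ?_⟩
      rw [hst, h1]
      linear_combination m ^ 2 * hr
    · right
      refine ⟨by rw [h1], ?_⟩
      rcases hr' with h2 | h2
      · rw [hst, h1, h2]; ring
      · exfalso
        rcases ht with h3 | h3 | h3
        · apply m0
          have : 2 * m = 0 := by linear_combination -hst + h3 - h1 + m * h2
          exact (mul_eq_zero.mp this).resolve_left two_ne_zero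
        · apply m0
          linear_combination -hst + h3 - h1 + m * h2
        · apply m0
          have : 3 * m = 0 := by linear_combination -hst + h3 - h1 + m * h2
          exact (mul_eq_zero.mp this).resolve_left three_ne_zero
    · right
      refine ⟨by rw [h1]; ring, ?_⟩
      rcases hr' with h2 | h2
      · exfalso
        rcases ht with h3 | h3 | h3
        · apply m0
          have : 2 * m = 0 := by linear_combination hst - h3 + h1 - m * h2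
          exact (mul_eq_zero.mp this).resolve_left two_ne_zero
        · apply m0
          have : 3 * m = 0 := by linear_combination hst - h3 + h1 - m * h2
          exact (mul_eq_zero.mp this).resolve_left three_ne_zero
        · apply m0
          linear_combination hst - h3 + h1 - m * h2
      · rw [hst, h1, h2]; ring
  have d01 : (b x₀ z = 0 ∧ b x₁ z ^ 2 = m ^ 2) ∨ (b x₀ z ^ 2 = m ^ 2 ∧ b x₁ z = 0) := by
    refine hdich (b x₀ z) (b x₁ z) (2 * b y₀ z / M) (fval x₀ hx₀) (fval x₁ hx₁Δ) hyz ?_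
    rw [ex₁, map_sub, map_smul, LinearMap.sub_apply, LinearMap.smul_apply, smul_eq_mul]
    ring
  -- the step
  have step : ∀ a c d u₀ u₁ v, u₀ ∈ Δ → u₁ ∈ Δ → v ∈ Δ → a ≠ c → a ≠ d → c ≠ d → Ov a c u₀ →
      Ov a c u₁ → b u₀ u₁ = 0 →
      ((b u₀ z = 0 ∧ b u₁ z ^ 2 = m ^ 2) ∨ (b u₀ z ^ 2 = m ^ 2 ∧ b u₁ z = 0)) → Ov c d v →
      ∃ v' ∈ Δ, Ov c d v' ∧ b v v' = 0 ∧
        ((b v z = 0 ∧ b v' z ^ 2 = m ^ 2) ∨ (b v z ^ 2 = m ^ 2 ∧ b v' z = 0)) := by
    intro a c d u₀ u₁ v hu₀ hu₁ hv hac had hcd ho₀ ho₁ hu hd hov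
    obtain ⟨g₀, hg₀, hg₀1, -⟩ := (hOv _ _ _).mp ho₀
    obtain ⟨g₁, hg₁, hg₁1, -⟩ := (hOv _ _ _).mp ho₁
    have r₀ : (2 * b u₀ v / N) ^ 2 = 1 :=
      adjD c a d u₀ v hu₀ hv hac.symm hcd had (ovsymm _ _ _ ho₀) hov
    have r₁ : (2 * b u₁ v / N) ^ 2 = 1 :=
      adjD c a d u₁ v hu₁ hv hac.symm hcd had (ovsymm _ _ _ ho₁) hov
    obtain ⟨v', hv'⟩ : ∃ v', v' = ρ (g₀ * g₁) v := ⟨_, rfl⟩
    have ev' : v' = v - (2 / N * b u₁ v) • u₁ - (2 / N * b u₀ v) • u₀ := by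
      rw [hv', map_mul, Module.End.mul_apply, hg₀, hg₁, refl_apply, refl_apply, S.sys.norm u₀ hu₀,
        S.sys.norm u₁ hu₁, map_sub, map_smul, hu, smul_zero, sub_zero]
    have hv'Δ : v' ∈ Δ := by rw [hv']; exact S.stab _ v hv
    have hfz : b v' z = b v z - (2 / N * b u₁ v) * b u₁ z - (2 / N * b u₀ v) * b u₀ z := by
      rw [ev', map_sub, map_sub, map_smul, map_smul, LinearMap.sub_apply, LinearMap.sub_apply,
        LinearMap.smul_apply, LinearMap.smul_apply, smul_eq_mul, smul_eq_mul]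
    refine ⟨v', hv'Δ, ?_, ?_, ?_⟩
    · have h1 := ovconj (g₀ * g₁) c d v hov
      rw [map_mul, hg₀1, hg₁1, swap_mul_self, Perm.one_apply, Perm.one_apply, ← hv'] at h1
      exact h1
    · rw [ev', map_sub, map_sub, map_smul, map_smul, S.sys.norm v hv, hs v u₁, hs v u₀, smul_eq_mul,
        smul_eq_mul]
      field_simp at r₀ r₁ ⊢
      linear_combination -(1/2) * r₀ - (1/2) * r₁
    · rcases hd with ⟨h1, h2⟩ | ⟨h1, h2⟩
      · obtain ⟨r, hr⟩ : ∃ r, r = 2 / N * b u₁ v * b u₁ z / m := ⟨_, rfl⟩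
        refine hdich (b v z) (b v' z) r (fval v hv) (fval v' hv'Δ) ?_ ?_
        · have : r ^ 2 = (2 * b u₁ v / N) ^ 2 * (b u₁ z ^ 2 / m ^ 2) := by rw [hr]; ring
          rw [this, r₁, h2, div_self (pow_ne_zero 2 m0), one_mul]
        · rw [hfz, h1, hr, mul_zero, sub_zero, div_mul_cancel₀ _ m0]
      · obtain ⟨r, hr⟩ : ∃ r, r = 2 / N * b u₀ v * b u₀ z / m := ⟨_, rfl⟩
        refine hdich (b v z) (b v' z) r (fval v hv) (fval v' hv'Δ) ?_ ?_
        · have : r ^ 2 = (2 * b u₀ v / N) ^ 2 * (b u₀ z ^ 2 / m ^ 2) := by rw [hr]; ring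
          rw [this, r₀, h1, div_self (pow_ne_zero 2 m0), one_mul]
        · rw [hfz, h2, hr, mul_zero, sub_zero, div_mul_cancel₀ _ m0]
  obtain ⟨p3, hp3⟩ := td15_fresh hk {p1, p2} ((Finset.card_le_two).trans (by norm_num))
  rw [Finset.mem_insert, Finset.mem_singleton, not_or] at hp3
  obtain ⟨p4, hp4⟩ := td15_fresh hk {p1, p2, p3} ((Finset.card_le_three).trans (by norm_num))
  simp only [Finset.mem_insert, Finset.mem_singleton, not_or] at hp4
  obtain ⟨v, hv, hvo⟩ := S.sys.ex p2 p3 (Ne.symm hp3.2)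
  rw [← hOv] at hvo
  obtain ⟨v', hv', hvo', hvv', hvd⟩ := step p1 p2 p3 x₀ x₁ v hx₀ hx₁Δ hv hp12 (Ne.symm hp3.1)
    (Ne.symm hp3.2) hxo hx₁o h01 d01 hvo
  obtain ⟨w, hw, hwo⟩ := S.sys.ex p3 p4 (Ne.symm hp4.2.2)
  rw [← hOv] at hwo
  obtain ⟨w', hw', hwo', hww', hwd⟩ := step p2 p3 p4 v v' w hv hv' hw (Ne.symm hp3.2)
    (Ne.symm hp4.2.1) (Ne.symm hp4.2.2) hvo hvo' hvv' hvd hwo
  -- the contradiction
  have fin : ∀ α ∈ Δ, ∀ β ∈ Δ, Ov p1 p2 α → Ov p3 p4 β → b α z ^ 2 = m ^ 2 → b β z ^ 2 = m ^ 2 →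
      False := by
    intro α hα β hβ hαo hβo h1 h2
    have hα' := S.stab gz α hα
    have hαo' : Ov p1 p2 (ρ gz α) := by
      have := ovconj gz p1 p2 α hαo
      rwa [hgz1] at this
    have e0 := disD p1 p2 p3 p4 α β hα hβ hp12 (Ne.symm hp4.2.2) (Ne.symm hp3.1) (Ne.symm hp4.1)
      (Ne.symm hp3.2) (Ne.symm hp4.2.1) hαo hβo
    have e1 := disD p1 p2 p3 p4 (ρ gz α) β hα' hβ hp12 (Ne.symm hp4.2.2) (Ne.symm hp3.1)
      (Ne.symm hp4.1) (Ne.symm hp3.2) (Ne.symm hp4.2.1) hαo' hβo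
    rw [hgz, refl_apply, map_sub, map_smul, LinearMap.sub_apply, LinearMap.smul_apply, e0, zero_sub,
      T.sys.norm z hz, smul_eq_mul, neg_eq_zero, hs z α, hs z β] at e1
    have hα0 : b α z ≠ 0 := by
      intro h
      rw [h] at h1
      exact m0 (pow_eq_zero_iff two_ne_zero |>.mp (by rw [← h1]; ring))
    have hβ0 : b β z ≠ 0 := by
      intro h
      rw [h] at h2
      exact m0 (pow_eq_zero_iff two_ne_zero |>.mp (by rw [← h2]; ring))
    exact (mul_ne_zero (mul_ne_zero (div_ne_zero two_ne_zero M0) hα0) hβ0) e1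
  rcases d01 with ⟨-, h1⟩ | ⟨h1, -⟩ <;> rcases hwd with ⟨-, h2⟩ | ⟨h2, -⟩
  · exact fin x₁ hx₁Δ w' hw' hx₁o hwo' h1 h2
  · exact fin x₁ hx₁Δ w hw hx₁o hwo h1 h2
  · exact fin x₀ hx₀ w' hw' hxo hwo' h1 h2
  · exact fin x₀ hx₀ w hw hxo hwo h1 h2

end Pool.Agent.TD
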